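import Mathlib

/-! Cheb. Chebyshev for the binomial distribution: sum_j C(N,j) p^j (1-p)^(N-j) (N p - j)^2 =
N p (1-p) <= N/4 (bernsteinPolynomial.variance evaluated at p), total mass 1; the j with j < m have
(N p - j)^2 >= N (as m <= N p - sqrt N), so their mass is <= 1/4 (N = 0: m <= 0, nothing to show). -/

namespace Pool.Agent.DP17

theorem cheb (N : ℕ) (p : ℝ) (hp : 0 ≤ p) (hp1 : p ≤ 1) (m : ℕ)
    (hm : (m : ℝ) ≤ N * p - Real.sqrt N) :
    3 / 4 ≤ ∑ j ∈ Finset.Icc m N, (N.choose j : ℝ) * p ^ j * (1 - p) ^ (N - j) := by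
  have hq : 0 ≤ 1 - p := by linarith
  set w : ℕ → ℝ := fun j => (N.choose j : ℝ) * p ^ j * (1 - p) ^ (N - j) with hw
  have hw0 : ∀ j, 0 ≤ w j := fun j => by
    show 0 ≤ (N.choose j : ℝ) * p ^ j * (1 - p) ^ (N - j)
    positivity
  have hb : ∀ j, (bernsteinPolynomial ℝ N j).eval p = w j := fun j => by
    simp [bernsteinPolynomial, hw]
  have htot : ∑ j ∈ Finset.range (N + 1), w j = 1 := by
    have h1 := congrArg (Polynomial.eval p) (bernsteinPolynomial.sum ℝ N)
    rw [Polynomial.eval_finsetSum, Polynomial.eval_one] at h1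
    rw [← h1]
    exact Finset.sum_congr rfl fun j _ => (hb j).symm
  have hvar : ∑ j ∈ Finset.range (N + 1), ((N : ℝ) * p - j) ^ 2 * w j = N * p * (1 - p) := by
    have h1 := congrArg (Polynomial.eval p) (bernsteinPolynomial.variance ℝ N)
    rw [Polynomial.eval_finsetSum] at h1
    have h2 : Polynomial.eval p (N • Polynomial.X * ((1 : Polynomial ℝ) - Polynomial.X)) =
        N * p * (1 - p) := by
      simp
    rw [h2] at h1
    rw [← h1]
    refine Finset.sum_congr rfl fun j _ => ?_
    rw [Polynomial.eval_mul, hb]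
    simp
  rcases Nat.eq_zero_or_pos N with hN | hN
  · subst hN
    have hm0 : m = 0 := by
      have h1 : (m : ℝ) ≤ 0 := by simpa using hm
      have h2 : (m : ℝ) = 0 := le_antisymm h1 (Nat.cast_nonneg m)
      exact_mod_cast h2
    subst hm0
    have h1 : ∑ j ∈ Finset.Icc 0 0, w j = 1 := by
      rw [← htot]
      rfl
    rw [h1]; norm_num
  · have hN' : (0 : ℝ) < N := by exact_mod_cast hN
    have hsplit : ∑ j ∈ Finset.range (N + 1), w j =
        ∑ j ∈ (Finset.range (N + 1)).filter (fun j => j < m), w j +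
        ∑ j ∈ (Finset.range (N + 1)).filter (fun j => ¬ j < m), w j :=
      (Finset.sum_filter_add_sum_filter_not _ _ _).symm
    have hIcc : (Finset.range (N + 1)).filter (fun j => ¬ j < m) = Finset.Icc m N := by
      ext j
      rw [Finset.mem_filter, Finset.mem_range, Finset.mem_Icc]
      omega
    have hsq : Real.sqrt N ^ 2 = N := Real.sq_sqrt hN'.le
    have hlow : N * ∑ j ∈ (Finset.range (N + 1)).filter (fun j => j < m), w j ≤
        ∑ j ∈ Finset.range (N + 1), ((N : ℝ) * p - j) ^ 2 * w j := by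
      rw [Finset.mul_sum]
      refine (Finset.sum_le_sum fun j hj => ?_).trans
        (Finset.sum_le_sum_of_subset_of_nonneg (Finset.filter_subset _ _) fun j _ _ =>
          mul_nonneg (sq_nonneg _) (hw0 j))
      have hjm := (Finset.mem_filter.1 hj).2
      have hjm' : (j : ℝ) ≤ m := by exact_mod_cast hjm.le
      have h1 : Real.sqrt N ≤ N * p - j := by linarith
      have h2 : Real.sqrt N ^ 2 ≤ (N * p - j) ^ 2 :=
        pow_le_pow_left₀ (Real.sqrt_nonneg _) h1 2
      rw [hsq] at h2
      exact mul_le_mul_of_nonneg_right h2 (hw0 j)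
    rw [hvar] at hlow
    have hpq : p * (1 - p) ≤ 1 / 4 := by nlinarith [sq_nonneg (p - 1 / 2)]
    have h3 : ∑ j ∈ (Finset.range (N + 1)).filter (fun j => j < m), w j ≤ 1 / 4 := by
      have h4 : (N : ℝ) * p * (1 - p) ≤ N * (1 / 4) := by
        rw [mul_assoc]
        exact mul_le_mul_of_nonneg_left hpq hN'.le
      exact le_of_mul_le_mul_left (hlow.trans h4) hN'
    rw [htot, hIcc] at hsplit
    show 3 / 4 ≤ ∑ j ∈ Finset.Icc m N, w j
    linarith

end Pool.Agent.DP17
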