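import Pool.Agent.DP17.Def
import Pool.Agent.DP17.Cheb
import Pool.Agent.DZ17.AvgBS17

/-! AvgS96: proof of avg. -/

set_option autoImplicit false

namespace Pool.Agent.DP17.AvgS96

open Pool.Agent.DP17

theorem ind_nonneg (U : Finset ℕ → Prop) (S : Finset ℕ) : 0 ≤ ind U S := by
  unfold ind
  split_ifs <;> norm_num

theorem card_good (U : Finset ℕ → Prop) [DecidablePred U] (s : Finset (Finset ℕ)) :
    ∑ B ∈ s, ind U B = ((s.filter U).card : ℝ) := by
  rw [Finset.card_filter]
  push_cast
  refine Finset.sum_congr rfl fun B _ => ?_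
  unfold ind
  congr

open Classical in
theorem avg (P : Finset ℕ → Prop) (X : Finset ℕ) (K h : ℕ) (d p : ℝ) (hd0 : 0 ≤ d)
    (hp : 0 ≤ p) (hp1 : p ≤ 1) (hh : h ≤ X.card)
    (hKh : (((K - h : ℕ)) : ℝ) ≤ ((X.card - h : ℕ) : ℝ) * p - Real.sqrt ((X.card - h : ℕ) : ℝ))
    (hd : d * (X.card.choose K : ℝ) ≤ (((X.powersetCard K).filter P).card : ℝ)) :
    ∃ H ⊆ X, H.card = h ∧
      3 / 4 * d ≤ mu p (X \ H) (fun S => ∃ A ⊆ H ∪ S, A.card = K ∧ P A) := by
  have h1p : 0 ≤ 1 - p := by linarith
  set n := X.card with hndef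
  set good : Finset ℕ → Prop := fun B => ∃ A ⊆ B, A.card = K ∧ P A with hgood
  by_contra hcon
  push Not at hcon
  set g : Finset ℕ → ℝ := fun B => p ^ (B.card - h) * (1 - p) ^ (n - B.card) * ind good B with hg
  have hg0 : ∀ B, 0 ≤ g B := fun B => by
    have := ind_nonneg good B
    simp only [hg]
    positivity
  have hlt : ∀ H ∈ X.powersetCard h, ∑ S ∈ (X \ H).powerset, g (H ∪ S) < 3 / 4 * d := by
    intro H hH
    rw [Finset.mem_powersetCard] at hH
    have h1 := hcon H hH.1 hH.2
    have hc : (X \ H).card = n - h := by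
      rw [Finset.card_sdiff_of_subset hH.1, hH.2]
    unfold mu ep at h1
    rw [hc] at h1
    refine lt_of_eq_of_lt ?_ h1
    refine Finset.sum_congr rfl fun S hS => ?_
    have hS' := Finset.mem_powerset.1 hS
    have hdisj : Disjoint H S := (Finset.disjoint_of_subset_left hS' Finset.sdiff_disjoint).symm
    have hcard : (H ∪ S).card = h + S.card := by
      rw [Finset.card_union_of_disjoint hdisj, hH.2]
    simp only [hg]
    rw [hcard, Nat.add_sub_cancel_left, Nat.sub_add_eq]
    rfl
  have hpos : 0 < (X.powersetCard h).card := by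
    rw [Finset.card_powersetCard]; exact Nat.choose_pos hh
  have hsum : ∑ H ∈ X.powersetCard h, ∑ S ∈ (X \ H).powerset, g (H ∪ S) <
      (n.choose h : ℝ) * (3 / 4 * d) := by
    have h1 := Finset.sum_lt_sum_of_nonempty (Finset.card_pos.1 hpos) hlt
    rw [Finset.sum_const, Finset.card_powersetCard, nsmul_eq_mul] at h1
    exact h1
  rw [Pool.Agent.DZ17.S17.key, Finset.sum_powerset] at hsum
  have hm : ∀ j ∈ Finset.Icc (K - h) (n - h),
      (n.choose h : ℝ) * d * (((n - h).choose j : ℝ) * p ^ j * (1 - p) ^ (n - h - j)) ≤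
      ∑ B ∈ Finset.powersetCard (j + h) X, (B.card.choose h : ℝ) * g B := by
    intro j hj
    rw [Finset.mem_Icc] at hj
    have hKj : K ≤ j + h := by omega
    have hjn : j + h ≤ n := by omega
    have h1 : ∑ B ∈ Finset.powersetCard (j + h) X, (B.card.choose h : ℝ) * g B =
        ((j + h).choose h : ℝ) * (p ^ j * (1 - p) ^ (n - h - j)) *
          (((X.powersetCard (j + h)).filter good).card : ℝ) := by
      rw [← card_good, Finset.mul_sum]
      refine Finset.sum_congr rfl fun B hB => ?_
      simp only [hg]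
      rw [(Finset.mem_powersetCard.1 hB).2, Nat.add_sub_cancel,
        show n - (j + h) = n - h - j by omega]
      ring
    rw [h1]
    have h2 := Pool.Agent.DZ17.upper_shadow P X K (j + h) d hKj hjn hd
    have h3 : n.choose (j + h) * (j + h).choose h = n.choose h * (n - h).choose (j + h - h) :=
      Nat.choose_mul (by omega)
    rw [Nat.add_sub_cancel] at h3
    have h5 : (n.choose (j + h) : ℝ) * ((j + h).choose h : ℝ) =
        (n.choose h : ℝ) * ((n - h).choose j : ℝ) := by exact_mod_cast h3
    calc (n.choose h : ℝ) * d * (((n - h).choose j : ℝ) * p ^ j * (1 - p) ^ (n - h - j))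
        = d * ((n.choose h : ℝ) * ((n - h).choose j : ℝ)) * (p ^ j * (1 - p) ^ (n - h - j)) := by
          ring
      _ = ((j + h).choose h : ℝ) * (p ^ j * (1 - p) ^ (n - h - j)) *
          (d * (n.choose (j + h) : ℝ)) := by rw [← h5]; ring
      _ ≤ _ := mul_le_mul_of_nonneg_left h2 (by positivity)
  have hge : (n.choose h : ℝ) * (3 / 4 * d) ≤
      ∑ m ∈ Finset.range (X.card + 1), ∑ B ∈ Finset.powersetCard m X,
        (B.card.choose h : ℝ) * g B := by
    have hc := cheb (n - h) p hp hp1 (K - h) hKh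
    have h4 : 0 ≤ (n.choose h : ℝ) * d := by positivity
    calc (n.choose h : ℝ) * (3 / 4 * d) = (n.choose h : ℝ) * d * (3 / 4) := by ring
      _ ≤ (n.choose h : ℝ) * d *
          ∑ j ∈ Finset.Icc (K - h) (n - h), ((n - h).choose j : ℝ) * p ^ j *
            (1 - p) ^ (n - h - j) := mul_le_mul_of_nonneg_left hc h4
      _ = ∑ j ∈ Finset.Icc (K - h) (n - h), (n.choose h : ℝ) * d *
            (((n - h).choose j : ℝ) * p ^ j * (1 - p) ^ (n - h - j)) := by
          rw [Finset.mul_sum]
      _ ≤ ∑ j ∈ Finset.Icc (K - h) (n - h), ∑ B ∈ Finset.powersetCard (j + h) X,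
            (B.card.choose h : ℝ) * g B := Finset.sum_le_sum hm
      _ = ∑ m ∈ (Finset.Icc (K - h) (n - h)).image (fun j => j + h),
            ∑ B ∈ Finset.powersetCard m X, (B.card.choose h : ℝ) * g B := by
          rw [Finset.sum_image]
          intro a _ b _ hab
          exact Nat.add_right_cancel hab
      _ ≤ _ := by
          apply Finset.sum_le_sum_of_subset_of_nonneg
          · intro m hm'
            rw [Finset.mem_image] at hm'
            obtain ⟨j, hj, rfl⟩ := hm'
            rw [Finset.mem_Icc] at hj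
            rw [Finset.mem_range]
            omega
          · intro m _ _
            exact Finset.sum_nonneg fun B _ => mul_nonneg (Nat.cast_nonneg _) (hg0 B)
  exact absurd hsum (not_lt.2 hge)

end Pool.Agent.DP17.AvgS96
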