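import Pool.Agent.DP17.Def
import Pool.Agent.DP17.Cheb
import Pool.Agent.DZ17.AvgBS17
import Pool.Agent.DP17.AvgS96

/-! Avg. n = card X, N = n - h, good B = B contains a K-set A with P A. As DZ17/AvgBS17.exH, with the
weights p^|S| (1-p)^(N-|S|): DZ17.S17.key for g B = p^(|B|-h) (1-p)^(n-|B|) good(B) (|S| = |B| - h for
B = H + S): the sum over the h-subsets H of X of C.. : sum_H mu p (X-H) (good (H + .)) =
sum_B C(|B|,h) p^(|B|-h) (1-p)^(n-|B|) good(B) >= sum_(m = max(K,h))^n d C(n,m) C(m,h) p^(m-h)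
(1-p)^(n-m) (DZ17.upper_shadow) = d C(n,h) sum_(j = max(K,h)-h)^N C(N,j) p^j (1-p)^(N-j) >=
(3/4) d C(n,h) (cheb with m = K - h in natural subtraction). Some H has at least the mean. -/

namespace Pool.Agent.DP17

open Classical in
theorem avg (P : Finset ℕ → Prop) (X : Finset ℕ) (K h : ℕ) (d p : ℝ) (hd0 : 0 ≤ d)
    (hp : 0 ≤ p) (hp1 : p ≤ 1) (hh : h ≤ X.card)
    (hKh : (((K - h : ℕ)) : ℝ) ≤ ((X.card - h : ℕ) : ℝ) * p - Real.sqrt ((X.card - h : ℕ) : ℝ))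
    (hd : d * (X.card.choose K : ℝ) ≤ (((X.powersetCard K).filter P).card : ℝ)) :
    ∃ H ⊆ X, H.card = h ∧
      3 / 4 * d ≤ mu p (X \ H) (fun S => ∃ A ⊆ H ∪ S, A.card = K ∧ P A) :=
  AvgS96.avg P X K h d p hd0 hp hp1 hh hKh hd

end Pool.Agent.DP17
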