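import Mathlib

/-! DP17 (helper17), MP_d6084f_co: the p-biased cube on the subsets of a finite set `Y`.
`ep p Y f` mean value of `f`, `df i f S = f (S + i) - f (S - i)`, `en` energy, `av` average over
the coordinate `i`, `inf` influence. -/

namespace Pool.Agent.DP17

/-- p-biased mean value over the subsets of `Y` -/
noncomputable def ep (p : ℝ) (Y : Finset ℕ) (f : Finset ℕ → ℝ) : ℝ :=
  ∑ S ∈ Y.powerset, p ^ S.card * (1 - p) ^ (Y.card - S.card) * f S

/-- difference in direction `i` -/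
def df (i : ℕ) (f : Finset ℕ → ℝ) (S : Finset ℕ) : ℝ := f (insert i S) - f (S.erase i)

/-- energy -/
noncomputable def en (p : ℝ) (Y : Finset ℕ) (f : Finset ℕ → ℝ) : ℝ :=
  ∑ i ∈ Y, ep p Y (fun S => df i f S ^ 2)

/-- average over the coordinate `i` -/
noncomputable def av (p : ℝ) (i : ℕ) (f : Finset ℕ → ℝ) (S : Finset ℕ) : ℝ :=
  (1 - p) * f (S.erase i) + p * f (insert i S)

/-- influence -/
noncomputable def inf (p : ℝ) (Y : Finset ℕ) (i : ℕ) (f : Finset ℕ → ℝ) : ℝ :=
  ep p Y (fun S => |df i f S|)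

theorem ep_add (p : ℝ) (Y : Finset ℕ) (f g : Finset ℕ → ℝ) :
    ep p Y (fun S => f S + g S) = ep p Y f + ep p Y g := by
  unfold ep
  rw [← Finset.sum_add_distrib]
  exact Finset.sum_congr rfl fun S _ => by ring

theorem ep_mul (p : ℝ) (Y : Finset ℕ) (c : ℝ) (f : Finset ℕ → ℝ) :
    ep p Y (fun S => c * f S) = c * ep p Y f := by
  unfold ep
  rw [Finset.mul_sum]
  exact Finset.sum_congr rfl fun S _ => by ring

theorem ep_sub (p : ℝ) (Y : Finset ℕ) (f g : Finset ℕ → ℝ) :
    ep p Y (fun S => f S - g S) = ep p Y f - ep p Y g := by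
  unfold ep
  rw [← Finset.sum_sub_distrib]
  exact Finset.sum_congr rfl fun S _ => by ring

theorem ep_congr (p : ℝ) (Y : Finset ℕ) {f g : Finset ℕ → ℝ} (h : ∀ S, S ⊆ Y → f S = g S) :
    ep p Y f = ep p Y g := by
  unfold ep
  exact Finset.sum_congr rfl fun S hS => by rw [h S (Finset.mem_powerset.1 hS)]

theorem ep_mono {p : ℝ} (hp : 0 ≤ p) (hp1 : p ≤ 1) (Y : Finset ℕ) {f g : Finset ℕ → ℝ}
    (h : ∀ S, S ⊆ Y → f S ≤ g S) : ep p Y f ≤ ep p Y g := by
  unfold ep
  refine Finset.sum_le_sum fun S hS => ?_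
  have h1 : 0 ≤ 1 - p := by linarith
  exact mul_le_mul_of_nonneg_left (h S (Finset.mem_powerset.1 hS)) (by positivity)

theorem ep_nonneg {p : ℝ} (hp : 0 ≤ p) (hp1 : p ≤ 1) (Y : Finset ℕ) {f : Finset ℕ → ℝ}
    (h : ∀ S, S ⊆ Y → 0 ≤ f S) : 0 ≤ ep p Y f := by
  unfold ep
  refine Finset.sum_nonneg fun S hS => ?_
  have h1 : 0 ≤ 1 - p := by linarith
  have h2 := h S (Finset.mem_powerset.1 hS)
  positivity

theorem ep_empty (p : ℝ) (f : Finset ℕ → ℝ) : ep p ∅ f = f ∅ := by
  simp [ep]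

theorem ep_insert (p : ℝ) {a : ℕ} {Y : Finset ℕ} (ha : a ∉ Y) (f : Finset ℕ → ℝ) :
    ep p (insert a Y) f = (1 - p) * ep p Y f + p * ep p Y (fun S => f (insert a S)) := by
  unfold ep
  rw [Finset.sum_powerset_insert ha, Finset.mul_sum, Finset.mul_sum]
  congr 1
  · refine Finset.sum_congr rfl fun S hS => ?_
    have h1 := Finset.card_le_card (Finset.mem_powerset.1 hS)
    rw [Finset.card_insert_of_notMem ha, Nat.succ_sub h1, pow_succ]
    ring
  · refine Finset.sum_congr rfl fun S hS => ?_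
    have h2 : a ∉ S := fun h => ha (Finset.mem_powerset.1 hS h)
    rw [Finset.card_insert_of_notMem ha, Finset.card_insert_of_notMem h2,
      Nat.add_sub_add_right, pow_succ]
    ring

theorem ep_const (p : ℝ) (Y : Finset ℕ) (c : ℝ) : ep p Y (fun _ => c) = c := by
  induction Y using Finset.induction_on with
  | empty => exact ep_empty p _
  | insert a Y ha ih => rw [ep_insert p ha, ih]; ring

theorem en_nonneg {p : ℝ} (hp : 0 ≤ p) (hp1 : p ≤ 1) (Y : Finset ℕ) (f : Finset ℕ → ℝ) :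
    0 ≤ en p Y f :=
  Finset.sum_nonneg fun _ _ => ep_nonneg hp hp1 Y fun _ _ => sq_nonneg _

open Classical in
/-- indicator -/
noncomputable def ind (U : Finset ℕ → Prop) (S : Finset ℕ) : ℝ := if U S then 1 else 0

/-- p-biased measure of the subsets of `Y` with property `U` -/
noncomputable def mu (p : ℝ) (Y : Finset ℕ) (U : Finset ℕ → Prop) : ℝ := ep p Y (ind U)

end Pool.Agent.DP17
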