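import Pool.Agent.DP17.Def
import Pool.Agent.DZ17.Mu

/-! Half. p = 1/2: p^|S| (1-p)^(|Y|-|S|) = 1/2^|Y| for S in powerset Y. -/

namespace Pool.Agent.DP17

theorem mu_half (Y : Finset ℕ) (U : Finset ℕ → Prop) : mu (1 / 2) Y U = Pool.Agent.DZ17.mu Y U := by
  unfold mu ep Pool.Agent.DZ17.mu Pool.Agent.DZ17.ex
  rw [Finset.sum_div]
  refine Finset.sum_congr rfl fun S hS => ?_
  have h1 : S.card ≤ Y.card := Finset.card_le_card (Finset.mem_powerset.1 hS)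
  have h2 : (1 - 1 / 2 : ℝ) = 1 / 2 := by norm_num
  have h3 : (1 / 2 : ℝ) ^ S.card * (1 / 2) ^ (Y.card - S.card) = 1 / 2 ^ Y.card := by
    rw [← pow_add, Nat.add_sub_cancel' h1, one_div_pow]
  have h4 : ind U S = Pool.Agent.DZ17.ind U S := rfl
  rw [h2, h3, h4]
  ring

end Pool.Agent.DP17
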