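import Pool.Agent.DP17.Def

/-! Ins. ep_insert for every term. The term i = a: df a f S = f (insert a S) - f S for S in
powerset Y (a not in S), and df a f (insert a S) = the same. The term i in Y:
df i f (insert a S) = df i (f o insert a) S, since i <> a (Finset.insert_comm, erase_insert_of_ne). -/

namespace Pool.Agent.DP17

theorem en_insert (p : ℝ) {a : ℕ} {Y : Finset ℕ} (ha : a ∉ Y) (f : Finset ℕ → ℝ) :
    en p (insert a Y) f = ep p Y (fun S => (f S - f (insert a S)) ^ 2) +
      ((1 - p) * en p Y f + p * en p Y (fun S => f (insert a S))) := by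
  unfold en
  rw [Finset.sum_insert ha, ep_insert p ha]
  have h1 : ep p Y (fun S => df a f S ^ 2) = ep p Y (fun S => (f S - f (insert a S)) ^ 2) := by
    apply ep_congr
    intro S hS
    unfold df
    rw [Finset.erase_eq_of_notMem (fun h => ha (hS h))]
    ring
  have h2 : ep p Y (fun S => df a f (insert a S) ^ 2) =
      ep p Y (fun S => (f S - f (insert a S)) ^ 2) := by
    apply ep_congr
    intro S hS
    unfold df
    rw [Finset.erase_insert (fun h => ha (hS h)), Finset.insert_idem]
    ring
  have h3 : ∑ i ∈ Y, ep p (insert a Y) (fun S => df i f S ^ 2) =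
      (1 - p) * ∑ i ∈ Y, ep p Y (fun S => df i f S ^ 2) +
        p * ∑ i ∈ Y, ep p Y (fun S => df i (fun S => f (insert a S)) S ^ 2) := by
    rw [Finset.mul_sum, Finset.mul_sum, ← Finset.sum_add_distrib]
    apply Finset.sum_congr rfl
    intro i hi
    have hia : a ≠ i := by
      intro h
      rw [← h] at hi
      exact ha hi
    rw [ep_insert p ha]
    congr 2
    apply ep_congr
    intro S _
    unfold df
    rw [Finset.insert_comm i a S, Finset.erase_insert_of_ne hia]
  rw [h1, h2, h3]
  ring

end Pool.Agent.DP17
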