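import Pool.Agent.DP17.Two
import Pool.Agent.DP17.Ins

/-! LS: as DZ17/LS (induction on Y for all f), with ep_insert, en_insert, two (a = sqrt P0,
b = sqrt P1) and mink; constant 2. -/

namespace Pool.Agent.DP17

theorem logsob {p : ℝ} (hp : 0 < p) (hp1 : p < 1) (Y : Finset ℕ) (f : Finset ℕ → ℝ) :
    ep p Y (fun S => f S ^ 2 * Real.log (f S ^ 2)) -
      ep p Y (fun S => f S ^ 2) * Real.log (ep p Y (fun S => f S ^ 2)) ≤ 2 * en p Y f := by
  induction Y using Finset.induction_on generalizing f with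
  | empty =>
    simp [ep, en]
  | insert a Y ha ih =>
    have h0 := mul_le_mul_of_nonneg_left (ih f) (show 0 ≤ 1 - p by linarith)
    have h1 := mul_le_mul_of_nonneg_left (ih (fun S => f (insert a S))) hp.le
    have hP0 : 0 ≤ ep p Y (fun S => f S ^ 2) := ep_nonneg hp.le hp1.le Y fun S _ => sq_nonneg _
    have hP1 : 0 ≤ ep p Y (fun S => f (insert a S) ^ 2) :=
      ep_nonneg hp.le hp1.le Y fun S _ => sq_nonneg _
    have hm := mink hp.le hp1.le Y f (fun S => f (insert a S))
    have ht := two p (Real.sqrt (ep p Y (fun S => f S ^ 2)))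
      (Real.sqrt (ep p Y (fun S => f (insert a S) ^ 2))) hp hp1 (Real.sqrt_nonneg _)
      (Real.sqrt_nonneg _)
    rw [Real.sq_sqrt hP0, Real.sq_sqrt hP1] at ht
    rw [ep_insert p ha, ep_insert p ha, en_insert p ha]
    linarith

end Pool.Agent.DP17
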