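import Pool.Agent.DP17.LS

/-! Low: exactly as DZ17/Low (P = ep d^2, w = ep |d|), with 2 en on the right. -/

namespace Pool.Agent.DP17

theorem low {p : ℝ} (hp : 0 < p) (hp1 : p < 1) (Y : Finset ℕ) (d : Finset ℕ → ℝ) (t : ℝ)
    (ht : 0 < t) :
    ep p Y (fun S => d S ^ 2) * Real.log t + ep p Y (fun S => d S ^ 2) -
      t * ep p Y (fun S => |d S|) ^ 2 ≤ 2 * en p Y d := by
  have hq : 0 < 1 - p := by linarith
  have hP0 : 0 ≤ ep p Y (fun S => d S ^ 2) := ep_nonneg hp.le hp1.le Y fun S _ => sq_nonneg _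
  have hw0 : 0 ≤ ep p Y (fun S => |d S|) := ep_nonneg hp.le hp1.le Y fun S _ => abs_nonneg _
  have hLS := logsob hp hp1 Y d
  have hEN := en_nonneg hp.le hp1.le Y d
  have hPw : ep p Y (fun S => |d S|) = 0 → ep p Y (fun S => d S ^ 2) = 0 := by
    intro h
    unfold ep at h ⊢
    rw [Finset.sum_eq_zero_iff_of_nonneg (fun S _ => by positivity)] at h
    apply Finset.sum_eq_zero
    intro S hS
    have h1 := h S hS
    have h2 : p ^ S.card * (1 - p) ^ (Y.card - S.card) ≠ 0 := by positivity
    have h3 := abs_eq_zero.1 ((mul_eq_zero.1 h1).resolve_left h2)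
    show p ^ S.card * (1 - p) ^ (Y.card - S.card) * d S ^ 2 = 0
    rw [h3]
    ring
  have hpt : ∀ P w : ℝ, 0 < P → 0 < w → ∀ S, S ⊆ Y →
      Real.log (P / w) * d S ^ 2 + (1 * d S ^ 2) ≤
        P / w * |d S| + (1 / 2) * (d S ^ 2 * Real.log (d S ^ 2)) := by
    intro P w hP hw S _
    rcases eq_or_ne (d S) 0 with h | h
    · rw [h]
      norm_num
    · have hx : 0 < |d S| := abs_pos.2 h
      have h1 : Real.log (d S ^ 2) = 2 * Real.log |d S| := by
        rw [Real.log_pow, Real.log_abs]
        norm_num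
      have h2 : d S ^ 2 = |d S| ^ 2 := (sq_abs _).symm
      rw [h1, h2]
      set x := |d S| with hxdef
      have h3 : Real.log (P / w / x) ≤ P / w / x - 1 := Real.log_le_sub_one_of_pos (by positivity)
      rw [Real.log_div (by positivity) (by positivity)] at h3
      have h4 := mul_le_mul_of_nonneg_right h3 (sq_nonneg x)
      have h5 : (P / w / x - 1) * x ^ 2 = P / w * x - x ^ 2 := by
        field_simp
      rw [h5] at h4
      linarith
  set P := ep p Y (fun S => d S ^ 2) with hPdef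
  set w := ep p Y (fun S => |d S|) with hwdef
  rcases hP0.eq_or_lt with hP | hP
  · rw [← hP]
    have : 0 ≤ t * w ^ 2 := by positivity
    linarith
  have hw : 0 < w := lt_of_le_of_ne hw0 (fun h => hP.ne' (hPw h.symm))
  have h1 := ep_mono hp.le hp1.le Y (hpt P w hP hw)
  rw [ep_add, ep_add, ep_mul, ep_mul, ep_mul, ep_mul, ← hPdef, ← hwdef] at h1
  have h2 : P / w * w = P := by field_simp
  rw [h2] at h1
  have h3 : Real.log (P / w) = Real.log P - Real.log w := Real.log_div hP.ne' hw.ne'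
  rw [h3] at h1
  have h4 : Real.log (t * w ^ 2 / P) ≤ t * w ^ 2 / P - 1 :=
    Real.log_le_sub_one_of_pos (by positivity)
  rw [Real.log_div (by positivity) hP.ne', Real.log_mul ht.ne' (by positivity), Real.log_pow] at h4
  have h5 := mul_le_mul_of_nonneg_right h4 hP.le
  have h6 : (t * w ^ 2 / P - 1) * P = t * w ^ 2 - P := by field_simp
  rw [h6] at h5
  push_cast at h5
  nlinarith

end Pool.Agent.DP17
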