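import Pool.Agent.DP17.MainS17

/-! Main. K = k + r, n = card X, P B = B contains a member of F, h = ceil(max 0 (2K - (1-e) n)).
Proof in MainS17. -/

namespace Pool.Agent.DP17

theorem main (k r : ℕ) (F : Set (Finset ℕ)) (hk : ∀ A ∈ F, A.card = k)
    (hF : ∀ G : Finset (Finset ℕ), (↑G : Set (Finset ℕ)) ⊆ F → G.card ≤ 7 →
      ∃ x y : ℕ, ∀ A ∈ G, x ∈ A ∨ y ∈ A)
    (X : Finset ℕ) (δ ε : ℝ) (hδ : 0 < δ) (hε : 0 < ε) (hε1 : ε ≤ 1 / 2)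
    (hX : 3 * (k + r) ≤ 2 * X.card)
    (hd : δ * (X.card.choose (k + r) : ℝ) ≤
      ({B : Finset ℕ | B ⊆ X ∧ B.card = k + r ∧ ∃ A ∈ F, A ⊆ B}.ncard : ℝ)) :
    ∃ T : Finset ℕ, (T.card : ℝ) ≤
        k / 2 + max 0 (2 * (k + r) - (1 - ε) * X.card) + Real.exp (60 / (δ * ε)) + 3 / 2 ∧
      ∀ A ∈ F, ∃ t ∈ T, t ∈ A :=
  S17.main k r F hk hF X δ ε hδ hε hε1 hX hd

end Pool.Agent.DP17
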