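import Pool.Agent.DP17.PathB17
import Pool.Agent.DP17.Avg
import Pool.Agent.DP17.Half
import Pool.Agent.DZ17.MainR

/-! MainB17: main with the error term (3/δ)^(40/ε) (path from PathB17). -/

namespace Pool.Agent.DP17.B17

open Pool.Agent.DP17

theorem rp (δ ε : ℝ) (hδ : 0 < δ) :
    (3 / δ) ^ (40 / ε) = Real.exp (40 * Real.log (3 / δ) / ε) := by
  rw [Real.rpow_def_of_pos (by positivity)]
  congr 1
  ring

theorem sixteen (δ ε : ℝ) (hδ : 0 < δ) (hδ1 : δ ≤ 1) (hε : 0 < ε) :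
    16 / ε ^ 2 ≤ (3 / δ) ^ (40 / ε) := by
  rw [rp δ ε hδ]
  have hlog : 1 ≤ Real.log (3 / δ) := by
    rw [Real.le_log_iff_exp_le (by positivity), le_div_iff₀ hδ]
    have h1 := Real.exp_one_lt_d9
    have h2 := Real.exp_pos 1
    nlinarith
  have h1 : 8 / ε ≤ 40 * Real.log (3 / δ) / ε := by
    apply div_le_div_of_nonneg_right _ hε.le
    linarith
  have h2 : 0 ≤ 8 / ε := by positivity
  have h3 : (8 / ε) ^ 2 / 2 ≤ Real.exp (8 / ε) := by
    have := Real.quadratic_le_exp_of_nonneg h2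
    linarith
  have h4 : 16 / ε ^ 2 ≤ (8 / ε) ^ 2 / 2 := by
    rw [div_pow]
    have : (8 : ℝ) ^ 2 / ε ^ 2 / 2 = 32 / ε ^ 2 := by ring
    rw [this]
    apply div_le_div_of_nonneg_right (by norm_num) (by positivity)
  exact h4.trans (h3.trans (Real.exp_le_exp.2 h1))

open Classical in
theorem main (k r : ℕ) (F : Set (Finset ℕ)) (hk : ∀ A ∈ F, A.card = k)
    (hF : ∀ G : Finset (Finset ℕ), (↑G : Set (Finset ℕ)) ⊆ F → G.card ≤ 7 →
      ∃ x y : ℕ, ∀ A ∈ G, x ∈ A ∨ y ∈ A)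
    (X : Finset ℕ) (δ ε : ℝ) (hδ : 0 < δ) (hε : 0 < ε) (hε1 : ε ≤ 1 / 2)
    (hX : 3 * (k + r) ≤ 2 * X.card)
    (hd : δ * (X.card.choose (k + r) : ℝ) ≤
      ({B : Finset ℕ | B ⊆ X ∧ B.card = k + r ∧ ∃ A ∈ F, A ⊆ B}.ncard : ℝ)) :
    ∃ T : Finset ℕ, (T.card : ℝ) ≤
        k / 2 + max 0 (2 * (k + r) - (1 - ε) * X.card) + (3 / δ) ^ (40 / ε) + 3 / 2 ∧
      ∀ A ∈ F, ∃ t ∈ T, t ∈ A := by
  have hset : {B : Finset ℕ | B ⊆ X ∧ B.card = k + r ∧ ∃ A ∈ F, A ⊆ B} =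
      (((X.powersetCard (k + r)).filter (fun B => ∃ A ∈ F, A ⊆ B) : Finset (Finset ℕ)) :
        Set (Finset ℕ)) := by
    ext B
    simp only [Set.mem_ofPred_eq, Finset.coe_filter, Finset.mem_powersetCard]
    tauto
  rw [hset, Set.ncard_coe_finset] at hd
  set K := k + r with hK
  set n := X.card with hn
  have hKn : K ≤ n := by omega
  have hcpos : (0 : ℝ) < (n.choose K : ℝ) := by exact_mod_cast Nat.choose_pos hKn
  have hδ1 : δ ≤ 1 := by
    have h1 : (((X.powersetCard K).filter (fun B => ∃ A ∈ F, A ⊆ B)).card : ℝ) ≤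
        (n.choose K : ℝ) := by
      have := Finset.card_filter_le (X.powersetCard K) (fun B => ∃ A ∈ F, A ⊆ B)
      rw [Finset.card_powersetCard] at this
      exact_mod_cast this
    have h2 := hd.trans h1
    by_contra hcon
    push Not at hcon
    nlinarith
  have hmax0 : (0 : ℝ) ≤ max 0 (2 * ((k : ℝ) + r) - (1 - ε) * n) := le_max_left _ _
  have hmax1 : 2 * ((k : ℝ) + r) - (1 - ε) * n ≤ max 0 (2 * ((k : ℝ) + r) - (1 - ε) * n) :=
    le_max_right _ _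
  set mx := max 0 (2 * ((k : ℝ) + r) - (1 - ε) * n) with hmx
  set h := ⌈mx⌉₊ with hh
  have hh1 : mx ≤ h := Nat.le_ceil _
  have hh2 : (h : ℝ) ≤ mx + 1 := (Nat.ceil_lt_add_one hmax0).le
  have hKr : ((K : ℕ) : ℝ) = (k : ℝ) + r := by rw [hK]; push_cast; ring
  have hXr : 3 * (K : ℝ) ≤ 2 * n := by exact_mod_cast hX
  have hn0 : (0 : ℝ) ≤ n := Nat.cast_nonneg n
  have hhn : h ≤ n := by
    rw [hh, Nat.ceil_le, hmx]
    apply max_le hn0
    rw [← hKr]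
    nlinarith
  have hexp : 0 < (3 / δ) ^ (40 / ε) := Real.rpow_pos_of_pos (by positivity) _
  rcases lt_or_ge (((n - h : ℕ)) : ℝ) (16 / ε ^ 2) with hsmall | hbig
  · have hmem : ∃ A ∈ F, A ⊆ X := by
      have h1 : (0 : ℝ) < (((X.powersetCard K).filter (fun B => ∃ A ∈ F, A ⊆ B)).card : ℝ) :=
        lt_of_lt_of_le (mul_pos hδ hcpos) hd
      have h2 : 0 < ((X.powersetCard K).filter (fun B => ∃ A ∈ F, A ⊆ B)).card := by
        exact_mod_cast h1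
      obtain ⟨B, hB⟩ := Finset.card_pos.1 h2
      rw [Finset.mem_filter, Finset.mem_powersetCard] at hB
      obtain ⟨⟨hBX, -⟩, A, hA, hAB⟩ := hB
      exact ⟨A, hA, hAB.trans hBX⟩
    obtain ⟨A0, hA0, hA0X⟩ := hmem
    have hcomb : 3 / 4 < Pool.Agent.DZ17.mu ∅ (fun S => ∃ A ∈ F, A ⊆ X ∪ (S ∪ ∅)) := by
      have h1 : Pool.Agent.DZ17.mu ∅ (fun S => ∃ A ∈ F, A ⊆ X ∪ (S ∪ ∅)) = 1 := by
        unfold Pool.Agent.DZ17.mu Pool.Agent.DZ17.ex
        rw [Finset.powerset_empty, Finset.sum_singleton]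
        unfold Pool.Agent.DZ17.ind
        rw [if_pos ⟨A0, hA0, hA0X.trans Finset.subset_union_left⟩]
        simp
      rw [h1]; norm_num
    obtain ⟨T, hT, hTA⟩ := Pool.Agent.DZ17.tail k F hk (X ∪ ∅)
      (fun D1 m1 D2 m2 D3 m3 d1 d2 d3 =>
        Pool.Agent.DZ17.comb F hF ∅ X ∅ hcomb D1 D2 D3 m1 m2 m3 d1 d2 d3)
    refine ⟨T, ?_, hTA⟩
    rw [Finset.union_empty] at hT
    have hT2 : (2 : ℝ) * T.card ≤ 2 * n + k + 1 := by exact_mod_cast hT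
    have h3 := sixteen δ ε hδ hδ1 hε
    have h4 : (n : ℝ) = ((n - h : ℕ) : ℝ) + h := by
      rw [Nat.cast_sub hhn]; ring
    linarith
  · have hNpos : (0 : ℝ) ≤ ((n - h : ℕ) : ℝ) := Nat.cast_nonneg _
    have hNr : ((n - h : ℕ) : ℝ) = n - h := by rw [Nat.cast_sub hhn]
    have hsqrt : Real.sqrt ((n - h : ℕ) : ℝ) ≤ ε * ((n - h : ℕ) : ℝ) / 4 := by
      apply Real.sqrt_le_iff.2
      refine ⟨by positivity, ?_⟩
      have h1 : 16 ≤ ((n - h : ℕ) : ℝ) * ε ^ 2 := by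
        have hb2 : 16 / ε ^ 2 ≤ ((n - h : ℕ) : ℝ) := hbig
        rw [div_le_iff₀ (by positivity)] at hb2
        exact hb2
      have h2 : (ε * ((n - h : ℕ) : ℝ) / 4) ^ 2 =
          ((n - h : ℕ) : ℝ) * (((n - h : ℕ) : ℝ) * ε ^ 2) / 16 := by ring
      rw [h2, le_div_iff₀ (by norm_num)]
      exact mul_le_mul_of_nonneg_left h1 hNpos
    have hKh : (((K - h : ℕ)) : ℝ) ≤ ((n - h : ℕ) : ℝ) * (1 / 2 - ε / 4) -
        Real.sqrt ((n - h : ℕ) : ℝ) := by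
      have hq : ((n - h : ℕ) : ℝ) * (1 - ε) / 2 ≤ ((n - h : ℕ) : ℝ) * (1 / 2 - ε / 4) -
          Real.sqrt ((n - h : ℕ) : ℝ) := by nlinarith
      refine le_trans ?_ hq
      rcases le_or_gt K h with hle | hgt
      · rw [Nat.sub_eq_zero_of_le hle, Nat.cast_zero]
        have : 0 ≤ 1 - ε := by linarith
        positivity
      · rw [Nat.cast_sub hgt.le, hNr]
        have h1 : 2 * (K : ℝ) - (1 - ε) * n ≤ h := by
          rw [hKr]; exact hmax1.trans hh1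
        have h2 : 0 ≤ ε * (h : ℝ) := by positivity
        nlinarith
    obtain ⟨H, hHX, hHc, hmu⟩ := avg (fun B => ∃ A ∈ F, A ⊆ B) X K h δ (1 / 2 - ε / 4) hδ.le
      (by linarith) (by linarith) hhn hKh hd
    obtain ⟨Z, hZ, hZc, hZm⟩ := path (X \ H)
      (fun S => ∃ A ⊆ H ∪ S, A.card = K ∧ ∃ A_1 ∈ F, A_1 ⊆ A)
      (by
        rintro S T hST ⟨A, hA, hA2⟩
        exact ⟨A, hA.trans (Finset.union_subset_union (Finset.Subset.refl H) hST), hA2⟩)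
      (3 / 4 * δ) ε (by linarith) hε hε1 hmu
    rw [mu_half] at hZm
    have hcomb : 3 / 4 < Pool.Agent.DZ17.mu (X \ H) (fun S => ∃ A ∈ F, A ⊆ H ∪ (S ∪ Z)) := by
      refine lt_of_lt_of_le hZm (Pool.Agent.DZ17.mu_le _ _ _ ?_)
      rintro S ⟨A, hA, -, B, hB, hBA⟩
      exact ⟨B, hB, hBA.trans hA⟩
    obtain ⟨T, hT, hTA⟩ := Pool.Agent.DZ17.tail k F hk (H ∪ Z)
      (fun D1 m1 D2 m2 D3 m3 d1 d2 d3 =>
        Pool.Agent.DZ17.comb F hF (X \ H) H Z hcomb D1 D2 D3 m1 m2 m3 d1 d2 d3)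
    refine ⟨T, ?_, hTA⟩
    have hW : (H ∪ Z).card ≤ h + Z.card := by
      refine (Finset.card_union_le _ _).trans ?_
      rw [hHc]
    have hT2 : (2 : ℝ) * T.card ≤ 2 * (h + Z.card) + k + 1 := by
      have h1 : 2 * T.card ≤ 2 * (h + Z.card) + k + 1 := by omega
      exact_mod_cast h1
    have hexp2 : Real.exp (40 * Real.log (2 / (3 / 4 * δ)) / ε) ≤ (3 / δ) ^ (40 / ε) := by
      rw [rp δ ε hδ]
      apply Real.exp_le_exp.2
      apply div_le_div_of_nonneg_right _ hε.le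
      apply mul_le_mul_of_nonneg_left _ (by norm_num)
      apply Real.log_le_log (by positivity)
      rw [div_le_div_iff₀ (by positivity) hδ]
      linarith
    linarith

end Pool.Agent.DP17.B17
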