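import Pool.Agent.DP17.Def

/-! MartA. split: for i in Y, Y = insert i (Y.erase i), ep_insert: ep p Y g =
(1-p) ep' g + p ep' (g o insert i), ep' = ep p (Y.erase i); there (i not in S) av p i f S =
av p i f (insert i S) = (1-p) f S + p f (insert i S).
ex_av: immediate. sq_av: f - av f = -p df i f at S, (1-p) df i f at insert i S, so
ep f^2 - ep (av f)^2 - ep (f - av f)^2 = 0 pointwise in (f S, f (insert i S)).
df_av: df j (av p i f) = av p i (df j f) for j <> i, df i (av p i f) = 0; df i (f - av f) = df i f,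
df j (f - av f) = df j f - av p i (df j f). en_av: sq_av for g = df j f (j <> i).
inf_av: |av g| <= av |g|. abs_av: ep |f - av f| = 2 p (1-p) ep |df i f| <= inf/2. -/

namespace Pool.Agent.DP17

lemma martA_split (p : ℝ) {Y : Finset ℕ} {i : ℕ} (hi : i ∈ Y) (g : Finset ℕ → ℝ) :
    ep p Y g = ep p (Y.erase i) (fun S => (1 - p) * g S + p * g (insert i S)) := by
  conv_lhs => rw [← Finset.insert_erase hi]
  rw [ep_insert p (Finset.notMem_erase i Y), ep_add p _ (fun S => (1 - p) * g S)
    (fun S => p * g (insert i S)), ep_mul, ep_mul p _ p (fun S => g (insert i S))]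

lemma martA_congr (p : ℝ) {Y : Finset ℕ} {i : ℕ} (hi : i ∈ Y) (g h : Finset ℕ → ℝ)
    (H : ∀ S : Finset ℕ, i ∉ S →
      (1 - p) * g S + p * g (insert i S) = (1 - p) * h S + p * h (insert i S)) :
    ep p Y g = ep p Y h := by
  rw [martA_split p hi g, martA_split p hi h]
  apply ep_congr
  intro S hS
  exact H S fun h => (Finset.notMem_erase i Y) (hS h)

lemma martA_mono {p : ℝ} (hp : 0 ≤ p) (hp1 : p ≤ 1) {Y : Finset ℕ} {i : ℕ} (hi : i ∈ Y)
    (g h : Finset ℕ → ℝ) (H : ∀ S : Finset ℕ, i ∉ S →
      (1 - p) * g S + p * g (insert i S) ≤ (1 - p) * h S + p * h (insert i S)) :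
    ep p Y g ≤ ep p Y h := by
  rw [martA_split p hi g, martA_split p hi h]
  apply ep_mono hp hp1
  intro S hS
  exact H S fun h => (Finset.notMem_erase i Y) (hS h)

lemma martA_av (p : ℝ) {i : ℕ} (f : Finset ℕ → ℝ) {S : Finset ℕ} (hS : i ∉ S) :
    av p i f S = (1 - p) * f S + p * f (insert i S) := by
  unfold av
  rw [Finset.erase_eq_of_notMem hS]

lemma martA_av' (p : ℝ) {i : ℕ} (f : Finset ℕ → ℝ) {S : Finset ℕ} (hS : i ∉ S) :
    av p i f (insert i S) = (1 - p) * f S + p * f (insert i S) := by
  unfold av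
  rw [Finset.erase_insert hS, Finset.insert_idem]

lemma martA_sub (j : ℕ) (f h : Finset ℕ → ℝ) (S : Finset ℕ) :
    df j (fun S => f S - h S) S = df j f S - df j h S := by
  unfold df
  ring

theorem ex_av (p : ℝ) {Y : Finset ℕ} {i : ℕ} (hi : i ∈ Y) (f : Finset ℕ → ℝ) :
    ep p Y (av p i f) = ep p Y f := by
  apply martA_congr p hi
  intro S hS
  rw [martA_av p f hS, martA_av' p f hS]
  ring

theorem sq_av (p : ℝ) {Y : Finset ℕ} {i : ℕ} (hi : i ∈ Y) (f : Finset ℕ → ℝ) :
    ep p Y (fun S => f S ^ 2) =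
      ep p Y (fun S => av p i f S ^ 2) + ep p Y (fun S => (f S - av p i f S) ^ 2) := by
  rw [← ep_add]
  apply martA_congr p hi
  intro S hS
  rw [martA_av p f hS, martA_av' p f hS]
  ring

theorem df_av_self (p : ℝ) (i : ℕ) (f : Finset ℕ → ℝ) (S : Finset ℕ) :
    df i (av p i f) S = 0 := by
  have h1 : insert i (S.erase i) = insert i S := by
    ext x
    simp only [Finset.mem_insert, Finset.mem_erase]
    tauto
  have h2 : (insert i S).erase i = S.erase i := by
    ext x
    simp only [Finset.mem_insert, Finset.mem_erase]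
    tauto
  unfold df av
  rw [h2, Finset.insert_idem, Finset.erase_idem, h1, sub_self]

theorem df_av (p : ℝ) {i j : ℕ} (hij : j ≠ i) (f : Finset ℕ → ℝ) (S : Finset ℕ) :
    df j (av p i f) S = av p i (df j f) S := by
  have h1 : (insert j S).erase i = insert j (S.erase i) := Finset.erase_insert_of_ne hij
  have h2 : (insert i S).erase j = insert i (S.erase j) := Finset.erase_insert_of_ne hij.symm
  have h3 : (S.erase j).erase i = (S.erase i).erase j := Finset.erase_right_comm
  have h4 : insert i (insert j S) = insert j (insert i S) := Finset.insert_comm _ _ _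
  simp only [df, av]
  rw [h1, h2, h3, h4]
  ring

theorem en_av (p : ℝ) {Y : Finset ℕ} {i : ℕ} (hi : i ∈ Y) (f : Finset ℕ → ℝ) :
    en p Y f = en p Y (av p i f) + en p Y (fun S => f S - av p i f S) := by
  unfold en
  rw [← Finset.sum_add_distrib]
  apply Finset.sum_congr rfl
  intro j _
  by_cases hij : j = i
  · subst hij
    have h1 : (fun S => df j (av p j f) S ^ 2) = fun _ => (0 : ℝ) := by
      funext S
      rw [df_av_self]
      norm_num
    have h2 : (fun S => df j (fun S => f S - av p j f S) S ^ 2) = fun S => df j f S ^ 2 := by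
      funext S
      rw [martA_sub, df_av_self, sub_zero]
    rw [h1, h2, ep_const, zero_add]
  · rw [sq_av p hi (df j f)]
    congr 2
    · funext S
      rw [df_av p hij]
    · funext S
      rw [martA_sub, df_av p hij]

theorem inf_av {p : ℝ} (hp : 0 ≤ p) (hp1 : p ≤ 1) {Y : Finset ℕ} {i : ℕ} (hi : i ∈ Y) (j : ℕ)
    (f : Finset ℕ → ℝ) : inf p Y j (av p i f) ≤ inf p Y j f := by
  unfold inf
  by_cases hij : j = i
  · subst hij
    have h1 : (fun S => |df j (av p j f) S|) = fun _ => (0 : ℝ) := by
      funext S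
      rw [df_av_self, abs_zero]
    rw [h1, ep_const]
    exact ep_nonneg hp hp1 Y fun _ _ => abs_nonneg _
  · apply martA_mono hp hp1 hi
    intro S hS
    rw [df_av p hij, df_av p hij, martA_av p _ hS, martA_av' p _ hS]
    have h1 : 0 ≤ 1 - p := by linarith
    calc (1 - p) * |(1 - p) * df j f S + p * df j f (insert i S)| +
          p * |(1 - p) * df j f S + p * df j f (insert i S)|
        = |(1 - p) * df j f S + p * df j f (insert i S)| := by ring
      _ ≤ |(1 - p) * df j f S| + |p * df j f (insert i S)| := abs_add_le _ _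
      _ = (1 - p) * |df j f S| + p * |df j f (insert i S)| := by
          rw [abs_mul, abs_mul, abs_of_nonneg h1, abs_of_nonneg hp]

theorem abs_av {p : ℝ} (hp : 0 ≤ p) (hp1 : p ≤ 1) {Y : Finset ℕ} {i : ℕ} (hi : i ∈ Y)
    (f : Finset ℕ → ℝ) : ep p Y (fun S => |f S - av p i f S|) ≤ inf p Y i f / 2 := by
  have h0 : inf p Y i f / 2 = ep p Y (fun S => (1 / 2) * |df i f S|) := by
    rw [ep_mul p Y (1 / 2) (fun S => |df i f S|)]
    unfold inf
    ring
  rw [h0]
  apply martA_mono hp hp1 hi
  intro S hS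
  rw [martA_av p f hS, martA_av' p f hS]
  have h1 : 0 ≤ 1 - p := by linarith
  have e1 : df i f S = f (insert i S) - f S := by
    unfold df
    rw [Finset.erase_eq_of_notMem hS]
  have e2 : df i f (insert i S) = f (insert i S) - f S := by
    unfold df
    rw [Finset.insert_idem, Finset.erase_insert hS]
  rw [e1, e2]
  have e3 : f S - ((1 - p) * f S + p * f (insert i S)) = -p * (f (insert i S) - f S) := by ring
  have e4 : f (insert i S) - ((1 - p) * f S + p * f (insert i S)) =
      (1 - p) * (f (insert i S) - f S) := by ring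
  rw [e3, e4, abs_mul, abs_mul, abs_neg, abs_of_nonneg hp, abs_of_nonneg h1]
  nlinarith [abs_nonneg (f (insert i S) - f S), sq_nonneg (1 - 2 * p),
    mul_nonneg (sq_nonneg (1 - 2 * p)) (abs_nonneg (f (insert i S) - f S))]

end Pool.Agent.DP17
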