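import Pool.Agent.DP17.Low
import Pool.Agent.DP17.MartA

/-! Mart. As DZ17/Mart. Claim for s subset of Y (Finset.induction_on s): there is h with
df i h S = 0 for all i in s and all S, ep h = ep f, inf j h <= inf j f for all j, and
(ep f^2 - ep h^2)(log t + 1) - t sum_(i in s) (inf i f / 2)^2 <= 2 en f - 2 en h.
Step: h' = av p i h (df j h' = av (df j h) = 0 for j in s), d = h - h': low for d, abs_av, sq_av,
en_av. For s = Y: h S = h {} for S in powerset Y (induction on S), so ep h^2 = (ep h)^2; en h >= 0. -/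

namespace Pool.Agent.DP17

theorem inf_nn {p : ℝ} (hp : 0 < p) (hp1 : p < 1) (Y : Finset ℕ) (i : ℕ) (f : Finset ℕ → ℝ) :
    0 ≤ inf p Y i f :=
  ep_nonneg hp.le hp1.le Y fun _ _ => abs_nonneg _

theorem mart_claim {p : ℝ} (hp : 0 < p) (hp1 : p < 1) (Y : Finset ℕ) (f : Finset ℕ → ℝ) (t : ℝ)
    (ht : 0 < t) (s : Finset ℕ) :
    s ⊆ Y → ∃ h : Finset ℕ → ℝ, (∀ i ∈ s, ∀ S, df i h S = 0) ∧ ep p Y h = ep p Y f ∧
      (∀ j, inf p Y j h ≤ inf p Y j f) ∧
      (ep p Y (fun S => f S ^ 2) - ep p Y (fun S => h S ^ 2)) * (Real.log t + 1) -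
        t * ∑ i ∈ s, (inf p Y i f / 2) ^ 2 ≤ 2 * en p Y f - 2 * en p Y h := by
  induction s using Finset.induction_on with
  | empty =>
    intro _
    exact ⟨f, by simp, rfl, fun j => le_rfl, by simp⟩
  | insert i s his ih =>
    intro hs
    have hiY : i ∈ Y := hs (Finset.mem_insert_self i s)
    obtain ⟨h, h1, h2, h3, h4⟩ := ih fun x hx => hs (Finset.mem_insert_of_mem hx)
    refine ⟨av p i h, ?_, ?_, ?_, ?_⟩
    · intro j hj S
      rcases Finset.mem_insert.1 hj with rfl | hj
      · exact df_av_self p j h S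
      · have hij : j ≠ i := fun e => his (e ▸ hj)
        rw [df_av p hij h S, av, h1 j hj, h1 j hj, mul_zero, mul_zero, add_zero]
    · rw [ex_av p hiY, h2]
    · exact fun j => (inf_av hp.le hp1.le hiY j h).trans (h3 j)
    · have k1 := low hp hp1 Y (fun S => h S - av p i h S) t ht
      have k2 := sq_av p hiY h
      have k3 := en_av p hiY h
      have k4 := abs_av hp.le hp1.le hiY h
      rw [Finset.sum_insert his]
      have k0 : 0 ≤ ep p Y (fun S => |h S - av p i h S|) :=
        ep_nonneg hp.le hp1.le Y fun _ _ => abs_nonneg _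
      have k5 : ep p Y (fun S => |h S - av p i h S|) ^ 2 ≤ (inf p Y i f / 2) ^ 2 :=
        pow_le_pow_left₀ k0 (by linarith [h3 i]) 2
      have k7 : t * ep p Y (fun S => |h S - av p i h S|) ^ 2 ≤ t * (inf p Y i f / 2) ^ 2 :=
        mul_le_mul_of_nonneg_left k5 ht.le
      have k8 : (ep p Y (fun S => f S ^ 2) - ep p Y (fun S => av p i h S ^ 2)) * (Real.log t + 1)
          = (ep p Y (fun S => f S ^ 2) - ep p Y (fun S => h S ^ 2)) * (Real.log t + 1) +
            (ep p Y (fun S => (h S - av p i h S) ^ 2) * Real.log t +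
              ep p Y (fun S => (h S - av p i h S) ^ 2)) := by
        rw [k2]
        ring
      rw [k8, mul_add t]
      linarith

theorem mart {p : ℝ} (hp : 0 < p) (hp1 : p < 1) (Y : Finset ℕ) (f : Finset ℕ → ℝ) (t : ℝ)
    (ht : 0 < t) :
    (ep p Y (fun S => f S ^ 2) - ep p Y f ^ 2) * (Real.log t + 1) -
      t * ∑ i ∈ Y, (inf p Y i f / 2) ^ 2 ≤ 2 * en p Y f := by
  obtain ⟨h, h1, h2, h3, h4⟩ := mart_claim hp hp1 Y f t ht Y (fun _ h => h)
  have hc : ∀ S : Finset ℕ, S ⊆ Y → h S = h ∅ := by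
    intro S
    induction S using Finset.induction_on with
    | empty => exact fun _ => rfl
    | insert i S hiS ih =>
      intro hS
      have k1 := h1 i (hS (Finset.mem_insert_self i S)) S
      rw [df, Finset.erase_eq_of_notMem hiS] at k1
      rw [← ih fun x hx => hS (Finset.mem_insert_of_mem hx)]
      linarith
  have e1 : ep p Y h = h ∅ := by
    rw [← ep_const p Y (h ∅)]
    exact ep_congr p Y hc
  have e2 : ep p Y (fun S => h S ^ 2) = h ∅ ^ 2 := by
    rw [← ep_const p Y (h ∅ ^ 2)]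
    exact ep_congr p Y fun S hS => by rw [hc S hS]
  have e3 := en_nonneg hp.le hp1.le Y h
  rw [e2, ← e1, h2] at h4
  linarith

end Pool.Agent.DP17
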