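import Pool.Agent.DP17.Def

/-! MartA, proofs (helper87). -/

namespace Pool.Agent.DP17.MartAS87

open Finset

theorem s1 (i : ℕ) (S : Finset ℕ) : insert i (S.erase i) = insert i S := by
  ext x
  simp only [mem_insert, mem_erase]
  tauto

theorem s2 (i : ℕ) (S : Finset ℕ) : (insert i S).erase i = S.erase i := by
  ext x
  simp only [mem_insert, mem_erase]
  tauto

theorem s3 (i : ℕ) (S : Finset ℕ) : (S.erase i).erase i = S.erase i := by
  ext x
  simp only [mem_erase]
  tauto

theorem s4 (i : ℕ) (S : Finset ℕ) : insert i (insert i S) = insert i S := by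
  ext x
  simp only [mem_insert]
  tauto

theorem t1 {i j : ℕ} (h : j ≠ i) (S : Finset ℕ) :
    (insert j S).erase i = insert j (S.erase i) := by
  ext x
  simp only [mem_insert, mem_erase]
  constructor
  · rintro ⟨h1, h2 | h2⟩
    · exact Or.inl h2
    · exact Or.inr ⟨h1, h2⟩
  · rintro (h2 | ⟨h1, h2⟩)
    · exact ⟨by rw [h2]; exact h, Or.inl h2⟩
    · exact ⟨h1, Or.inr h2⟩

theorem t2 (i j : ℕ) (S : Finset ℕ) : insert i (insert j S) = insert j (insert i S) := by
  ext x
  simp only [mem_insert]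
  tauto

theorem t3 (i j : ℕ) (S : Finset ℕ) : (S.erase j).erase i = (S.erase i).erase j := by
  ext x
  simp only [mem_erase]
  tauto

theorem ep_split (p : ℝ) {Y : Finset ℕ} {i : ℕ} (hi : i ∈ Y) (g : Finset ℕ → ℝ) :
    ep p Y g = ep p (Y.erase i) (fun S => (1 - p) * g S + p * g (insert i S)) := by
  have h := ep_insert p (notMem_erase i Y) g
  rw [insert_erase hi] at h
  rw [h, ep_add, ep_mul, ep_mul]

theorem av_lo (p : ℝ) {i : ℕ} (f : Finset ℕ → ℝ) {S : Finset ℕ} (h : i ∉ S) :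
    av p i f S = (1 - p) * f S + p * f (insert i S) := by
  unfold av
  rw [erase_eq_of_notMem h]

theorem av_hi (p : ℝ) {i : ℕ} (f : Finset ℕ → ℝ) {S : Finset ℕ} (h : i ∉ S) :
    av p i f (insert i S) = (1 - p) * f S + p * f (insert i S) := by
  unfold av
  rw [s2, s4, erase_eq_of_notMem h]

theorem not_mem {Y S : Finset ℕ} {i : ℕ} (h : S ⊆ Y.erase i) : i ∉ S :=
  fun h' => notMem_erase i Y (h h')

theorem ex_av (p : ℝ) {Y : Finset ℕ} {i : ℕ} (hi : i ∈ Y) (f : Finset ℕ → ℝ) :
    ep p Y (av p i f) = ep p Y f := by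
  rw [ep_split p hi, ep_split p hi f]
  refine ep_congr p _ fun S hS => ?_
  rw [av_lo p f (not_mem hS), av_hi p f (not_mem hS)]
  ring

theorem sq_av (p : ℝ) {Y : Finset ℕ} {i : ℕ} (hi : i ∈ Y) (f : Finset ℕ → ℝ) :
    ep p Y (fun S => f S ^ 2) =
      ep p Y (fun S => av p i f S ^ 2) + ep p Y (fun S => (f S - av p i f S) ^ 2) := by
  rw [← ep_add, ep_split p hi, ep_split p hi (fun S => av p i f S ^ 2 + (f S - av p i f S) ^ 2)]
  refine ep_congr p _ fun S hS => ?_
  show (1 - p) * f S ^ 2 + p * f (insert i S) ^ 2 =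
    (1 - p) * (av p i f S ^ 2 + (f S - av p i f S) ^ 2) +
      p * (av p i f (insert i S) ^ 2 + (f (insert i S) - av p i f (insert i S)) ^ 2)
  rw [av_lo p f (not_mem hS), av_hi p f (not_mem hS)]
  ring

theorem df_av_self (p : ℝ) (i : ℕ) (f : Finset ℕ → ℝ) (S : Finset ℕ) :
    df i (av p i f) S = 0 := by
  unfold df av
  rw [s2, s4, s3, s1]
  ring

theorem df_av (p : ℝ) {i j : ℕ} (hij : j ≠ i) (f : Finset ℕ → ℝ) (S : Finset ℕ) :
    df j (av p i f) S = av p i (df j f) S := by
  unfold df av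
  rw [t1 hij, t2 i j S, t3 i j S, ← t1 hij.symm S]
  ring

theorem df_sub (j : ℕ) (f g : Finset ℕ → ℝ) (S : Finset ℕ) :
    df j (fun S => f S - g S) S = df j f S - df j g S := by
  unfold df
  ring

theorem en_av (p : ℝ) {Y : Finset ℕ} {i : ℕ} (hi : i ∈ Y) (f : Finset ℕ → ℝ) :
    en p Y f = en p Y (av p i f) + en p Y (fun S => f S - av p i f S) := by
  unfold en
  rw [← sum_add_distrib]
  refine sum_congr rfl fun j _ => ?_
  by_cases hj : j = i
  · rw [hj, ← ep_add]
    refine ep_congr p _ fun S _ => ?_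
    show df i f S ^ 2 = df i (av p i f) S ^ 2 + df i (fun S => f S - av p i f S) S ^ 2
    rw [df_sub, df_av_self]
    ring
  · rw [sq_av p hi (df j f)]
    congr 1
    · refine ep_congr p _ fun S _ => ?_
      show av p i (df j f) S ^ 2 = df j (av p i f) S ^ 2
      rw [df_av p hj]
    · refine ep_congr p _ fun S _ => ?_
      show (df j f S - av p i (df j f) S) ^ 2 = df j (fun S => f S - av p i f S) S ^ 2
      rw [df_sub, df_av p hj]

theorem inf_av {p : ℝ} (hp : 0 ≤ p) (hp1 : p ≤ 1) {Y : Finset ℕ} {i : ℕ} (hi : i ∈ Y) (j : ℕ)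
    (f : Finset ℕ → ℝ) : inf p Y j (av p i f) ≤ inf p Y j f := by
  unfold inf
  by_cases hj : j = i
  · rw [hj]
    refine ep_mono hp hp1 Y fun S _ => ?_
    rw [df_av_self, abs_zero]
    exact abs_nonneg _
  · rw [← ex_av p hi (fun S => |df j f S|)]
    refine ep_mono hp hp1 Y fun S _ => ?_
    rw [df_av p hj]
    unfold av
    have h1 : 0 ≤ 1 - p := by linarith
    refine (abs_add_le _ _).trans (le_of_eq ?_)
    rw [abs_mul, abs_mul, abs_of_nonneg h1, abs_of_nonneg hp]

theorem abs_av {p : ℝ} (hp : 0 ≤ p) (hp1 : p ≤ 1) {Y : Finset ℕ} {i : ℕ} (hi : i ∈ Y)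
    (f : Finset ℕ → ℝ) : ep p Y (fun S => |f S - av p i f S|) ≤ inf p Y i f / 2 := by
  unfold inf
  have e0 : ep p Y (fun S => |df i f S|) / 2 = ep p Y (fun S => (1 / 2) * |df i f S|) := by
    rw [ep_mul]
    ring
  rw [e0, ep_split p hi, ep_split p hi (fun S => (1 / 2) * |df i f S|)]
  refine ep_mono hp hp1 _ fun S hS => ?_
  have hi' := not_mem hS
  show (1 - p) * |f S - av p i f S| + p * |f (insert i S) - av p i f (insert i S)| ≤
    (1 - p) * ((1 / 2) * |df i f S|) + p * ((1 / 2) * |df i f (insert i S)|)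
  have h1 : 0 ≤ 1 - p := by linarith
  have e1 : df i f S = f (insert i S) - f S := by
    unfold df
    rw [erase_eq_of_notMem hi']
  have e2 : df i f (insert i S) = f (insert i S) - f S := by
    unfold df
    rw [s4, s2, erase_eq_of_notMem hi']
  rw [e1, e2, av_lo p f hi', av_hi p f hi']
  have e3 : f S - ((1 - p) * f S + p * f (insert i S)) = -p * (f (insert i S) - f S) := by ring
  have e4 : f (insert i S) - ((1 - p) * f S + p * f (insert i S)) =
      (1 - p) * (f (insert i S) - f S) := by ring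
  rw [e3, e4, abs_mul, abs_mul, abs_neg, abs_of_nonneg hp, abs_of_nonneg h1]
  have h2 := abs_nonneg (f (insert i S) - f S)
  have h3 := mul_nonneg (sq_nonneg (2 * p - 1)) h2
  nlinarith only [h2, h3]

end Pool.Agent.DP17.MartAS87
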