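import Pool.Agent.DP17.Def

/-! Russo: monotonicity in p. -/

set_option autoImplicit false

namespace Pool.Agent.DP17

theorem ep_mono_p74 {p p' : ℝ} (hp : 0 ≤ p) (hpp : p ≤ p') (hp1 : p' ≤ 1) (Y : Finset ℕ) :
    ∀ f : Finset ℕ → ℝ, (∀ S T, S ⊆ T → f S ≤ f T) → ep p Y f ≤ ep p' Y f := by
  induction Y using Finset.induction_on with
  | empty =>
    intro f _
    rw [ep_empty, ep_empty]
  | insert a Y ha ih =>
    intro f hf
    rw [ep_insert p ha, ep_insert p' ha]
    have h1 := ih f hf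
    have h2 := ih (fun S => f (insert a S)) fun S T hST => hf _ _ (Finset.insert_subset_insert a hST)
    have h3 : ep p' Y f ≤ ep p' Y (fun S => f (insert a S)) :=
      ep_mono (hp.trans hpp) hp1 Y fun S _ => hf _ _ (Finset.subset_insert a S)
    have h4 := mul_le_mul_of_nonneg_left h1 (by linarith : (0 : ℝ) ≤ 1 - p)
    have h5 := mul_le_mul_of_nonneg_left h2 hp
    have h6 : 0 ≤ (p' - p) * (ep p' Y (fun S => f (insert a S)) - ep p' Y f) :=
      mul_nonneg (by linarith) (by linarith)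
    nlinarith

theorem mu_mono_p74 (Y : Finset ℕ) (U : Finset ℕ → Prop) (hU : ∀ S T, S ⊆ T → U S → U T)
    {p p' : ℝ} (hp : 0 ≤ p) (hpp : p ≤ p') (hp1 : p' ≤ 1) : mu p Y U ≤ mu p' Y U := by
  unfold mu
  refine ep_mono_p74 hp hpp hp1 Y _ fun S T hST => ?_
  unfold ind
  by_cases h1 : U S
  · rw [if_pos h1, if_pos (hU S T hST h1)]
  · rw [if_neg h1]
    split_ifs
    · exact zero_le_one
    · exact le_rfl

end Pool.Agent.DP17
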