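import Pool.Agent.DP17.Def

/-! Russo: the derivative of the mean value. -/

namespace Pool.Agent.DP17

theorem deriv_ep83 (Y : Finset ℕ) : ∀ (f : Finset ℕ → ℝ) (p : ℝ),
    HasDerivAt (fun p => ep p Y f) (∑ i ∈ Y, ep p Y (df i f)) p := by
  induction Y using Finset.induction_on with
  | empty =>
    intro f p
    simp only [ep_empty, Finset.sum_empty]
    exact hasDerivAt_const p (f ∅)
  | insert a Y ha ih =>
    intro f p
    have h1 := ih f p
    have h2 := ih (fun S => f (insert a S)) p
    have h3 : HasDerivAt (fun p : ℝ => 1 - p) (-1) p := by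
      simpa using (hasDerivAt_id p).const_sub 1
    have h4 : HasDerivAt (fun p : ℝ => p) 1 p := hasDerivAt_id p
    have h5 := (h3.fun_mul h1).fun_add (h4.fun_mul h2)
    have e1 : (fun p => ep p (insert a Y) f) =
        fun p => (1 - p) * ep p Y f + p * ep p Y (fun S => f (insert a S)) := by
      funext q
      exact ep_insert q ha f
    rw [e1]
    refine h5.congr_deriv ?_
    rw [Finset.sum_insert ha]
    have e2 : ep p (insert a Y) (df a f) =
        ep p Y (fun S => f (insert a S)) - ep p Y f := by
      rw [ep_insert p ha]
      have e3 : ep p Y (df a f) = ep p Y (fun S => f (insert a S) - f S) := by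
        apply ep_congr
        intro S hS
        have haS : a ∉ S := fun h => ha (hS h)
        unfold df
        rw [Finset.erase_eq_of_notMem haS]
      have e4 : ep p Y (fun S => df a f (insert a S)) =
          ep p Y (fun S => f (insert a S) - f S) := by
        apply ep_congr
        intro S hS
        have haS : a ∉ S := fun h => ha (hS h)
        unfold df
        rw [Finset.insert_idem, Finset.erase_insert haS]
      rw [e3, e4, ep_sub]
      ring
    have e5 : ∑ i ∈ Y, ep p (insert a Y) (df i f) =
        (1 - p) * ∑ i ∈ Y, ep p Y (df i f) +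
          p * ∑ i ∈ Y, ep p Y (df i (fun S => f (insert a S))) := by
      rw [Finset.mul_sum, Finset.mul_sum, ← Finset.sum_add_distrib]
      apply Finset.sum_congr rfl
      intro i hi
      have hia : a ≠ i := by
        rintro rfl
        exact ha hi
      rw [ep_insert p ha]
      congr 2
      apply ep_congr
      intro S hS
      unfold df
      rw [Finset.insert_comm, Finset.erase_insert_of_ne hia]
    rw [e2, e5]
    ring

theorem russo83 (Y : Finset ℕ) (U : Finset ℕ → Prop) (hU : ∀ S T, S ⊆ T → U S → U T) (p : ℝ) :
    HasDerivAt (fun p => mu p Y U) (∑ i ∈ Y, inf p Y i (ind U)) p := by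
  have h := deriv_ep83 Y (ind U) p
  have e : ∑ i ∈ Y, inf p Y i (ind U) = ∑ i ∈ Y, ep p Y (df i (ind U)) := by
    apply Finset.sum_congr rfl
    intro i _
    unfold inf
    apply ep_congr
    intro S _
    apply abs_of_nonneg
    unfold df ind
    by_cases h1 : U (S.erase i)
    · have h2 : U (insert i S) :=
        hU _ _ ((Finset.erase_subset i S).trans (Finset.subset_insert i S)) h1
      rw [if_pos h1, if_pos h2]
      norm_num
    · rw [if_neg h1]
      split_ifs <;> norm_num
  rw [e]
  exact h

end Pool.Agent.DP17
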