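import Pool.Agent.DP17.Def
import Pool.Agent.DP17.RussoS74
import Pool.Agent.DP17.RussoS83

/-! Russo. deriv_ep: induction on Y for all f with ep_insert: the derivative of
(1-p) ep Y f + p ep Y f1 is ep Y (f1 - f) + (1-p) (ep Y f)' + p (ep Y f1)'; df a f S = f1 S - f S for S
in powerset Y and for insert a S; df i f (insert a S) = df i f1 S for i in Y.
russo: U is an up-set, so df i (ind U) >= 0 and |df| = df.
mu_mono_p: monotoneOn_of_deriv_nonneg on [0,1] (inf >= 0), or induction on Y. -/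

namespace Pool.Agent.DP17

theorem deriv_ep (Y : Finset ℕ) (f : Finset ℕ → ℝ) (p : ℝ) :
    HasDerivAt (fun p => ep p Y f) (∑ i ∈ Y, ep p Y (df i f)) p :=
  deriv_ep83 Y f p

theorem russo (Y : Finset ℕ) (U : Finset ℕ → Prop) (hU : ∀ S T, S ⊆ T → U S → U T) (p : ℝ) :
    HasDerivAt (fun p => mu p Y U) (∑ i ∈ Y, inf p Y i (ind U)) p :=
  russo83 Y U hU p

theorem mu_mono_p (Y : Finset ℕ) (U : Finset ℕ → Prop) (hU : ∀ S T, S ⊆ T → U S → U T)
    {p p' : ℝ} (hp : 0 ≤ p) (hpp : p ≤ p') (hp1 : p' ≤ 1) : mu p Y U ≤ mu p' Y U :=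
  mu_mono_p74 Y U hU hp hpp hp1

end Pool.Agent.DP17
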