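import Pool.Agent.DP17.Def

/-! DP17/StepS2 (helper2): shadow of step. -/

namespace Pool.Agent.DP17.StepS2

open Pool.Agent.DP17

theorem step (p : ℝ) (Y : Finset ℕ) (U : Finset ℕ → Prop) (hU : ∀ S T, S ⊆ T → U S → U T)
    (Z : Finset ℕ) {i : ℕ} (hi : i ∈ Y) :
    mu p Y (fun S => U (S ∪ insert i Z)) =
      mu p Y (fun S => U (S ∪ Z)) + (1 - p) * inf p Y i (ind (fun S => U (S ∪ Z))) := by
  classical
  obtain ⟨X, hX⟩ : ∃ X, X = Y.erase i := ⟨_, rfl⟩
  have hiX : i ∉ X := by rw [hX]; exact Finset.notMem_erase i Y
  have hY : Y = insert i X := by rw [hX, Finset.insert_erase hi]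
  obtain ⟨g, hg⟩ : ∃ g, g = ind (fun S => U (S ∪ Z)) := ⟨_, rfl⟩
  have hmono : ∀ S, g S ≤ g (insert i S) := by
    intro S
    rw [hg]
    unfold ind
    by_cases h1 : U (S ∪ Z)
    · have h2 : U (insert i S ∪ Z) :=
        hU _ _ (Finset.union_subset_union_left (Finset.subset_insert i S)) h1
      rw [if_pos h1, if_pos h2]
    · rw [if_neg h1]
      split_ifs <;> norm_num
  have e1 : mu p Y (fun S => U (S ∪ insert i Z)) = ep p X (fun S => g (insert i S)) := by
    unfold mu
    rw [hY, ep_insert p hiX]
    have a1 : ep p X (ind (fun S => U (S ∪ insert i Z))) = ep p X (fun S => g (insert i S)) := by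
      apply ep_congr
      intro S _
      rw [hg]
      unfold ind
      have : S ∪ insert i Z = insert i S ∪ Z := by
        rw [Finset.union_insert, Finset.insert_union]
      simp only [this]
    have a2 : ep p X (fun S => ind (fun S => U (S ∪ insert i Z)) (insert i S)) =
        ep p X (fun S => g (insert i S)) := by
      apply ep_congr
      intro S _
      rw [hg]
      unfold ind
      have : insert i S ∪ insert i Z = insert i S ∪ Z := by
        rw [Finset.union_insert, Finset.insert_union, Finset.insert_idem]
      simp only [this]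
    rw [a1, a2]
    ring
  have e2 : mu p Y (fun S => U (S ∪ Z)) =
      (1 - p) * ep p X g + p * ep p X (fun S => g (insert i S)) := by
    unfold mu
    rw [← hg, hY, ep_insert p hiX]
  have e3 : inf p Y i g = ep p X (fun S => g (insert i S)) - ep p X g := by
    unfold inf
    rw [hY, ep_insert p hiX]
    have a1 : ep p X (fun S => |df i g S|) = ep p X (fun S => g (insert i S) - g S) := by
      apply ep_congr
      intro S hS
      unfold df
      rw [Finset.erase_eq_of_notMem fun h => hiX (hS h),
        abs_of_nonneg (sub_nonneg.2 (hmono S))]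
    have a2 : ep p X (fun S => |df i g (insert i S)|) =
        ep p X (fun S => g (insert i S) - g S) := by
      apply ep_congr
      intro S hS
      unfold df
      rw [Finset.erase_insert fun h => hiX (hS h), Finset.insert_idem,
        abs_of_nonneg (sub_nonneg.2 (hmono S))]
    rw [a1, a2, ep_sub p X (fun S => g (insert i S)) g]
    ring
  rw [← hg, e1, e2, e3]
  ring

end Pool.Agent.DP17.StepS2
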