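import Pool.Agent.DP17.Def
import Pool.Agent.DP17.StepS2

/-! Step. U up-set, g = ind (U (. + Z)) monotone, i in Y: split ep over i (Y = insert i (Y.erase i),
ep_insert): for S without i: ind U ((S + i) + Z) counts g (S + i) in both halves, so
ep ind U_(i+Z) = ep' g1 = (1-p) ep' g + p ep' g1 + (1-p) ep' (g1 - g), and inf = ep' (g1 - g). -/

namespace Pool.Agent.DP17

theorem step (p : ℝ) (Y : Finset ℕ) (U : Finset ℕ → Prop) (hU : ∀ S T, S ⊆ T → U S → U T)
    (Z : Finset ℕ) {i : ℕ} (hi : i ∈ Y) :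
    mu p Y (fun S => U (S ∪ insert i Z)) =
      mu p Y (fun S => U (S ∪ Z)) + (1 - p) * inf p Y i (ind (fun S => U (S ∪ Z))) :=
  StepS2.step p Y U hU Z hi

end Pool.Agent.DP17
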