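import Pool.Agent.DP17.Rate
import Pool.Agent.DP17.Russo
import Pool.Agent.DP17.Step

/-! Path (shadow, helper94). -/

namespace Pool.Agent.DP17.S94

open Pool.Agent.DP17 Set Filter Topology

theorem mu_le_one {p : ℝ} (hp : 0 ≤ p) (hp1 : p ≤ 1) (Y : Finset ℕ) (U : Finset ℕ → Prop) :
    mu p Y U ≤ 1 := by
  unfold mu
  rw [← ep_const p Y 1]
  refine ep_mono hp hp1 Y fun S _ => ?_
  unfold ind
  split_ifs <;> norm_num

theorem path (Y : Finset ℕ) (U : Finset ℕ → Prop) (hU : ∀ S T, S ⊆ T → U S → U T)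
    (d e : ℝ) (hd : 0 < d) (he : 0 < e) (he1 : e ≤ 1 / 2) (h : d ≤ mu (1 / 2 - e / 4) Y U) :
    ∃ Z ⊆ Y, (Z.card : ℝ) ≤ Real.exp (40 / (d * e)) ∧
      3 / 4 < mu (1 / 2) Y (fun S => U (S ∪ Z)) := by
  by_contra hc
  push Not at hc
  have hde : 0 < d * e := mul_pos hd he
  have hd1 : d ≤ 1 := h.trans (mu_le_one (by linarith) (by linarith) Y U)
  have hUZ : ∀ Z : Finset ℕ, ∀ S T : Finset ℕ, S ⊆ T → U (S ∪ Z) → U (T ∪ Z) :=
    fun Z S T hST hS => hU _ _ (Finset.union_subset_union hST (Finset.Subset.refl Z)) hS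
  -- the constants
  obtain ⟨th, hthdef⟩ : ∃ th, th = d * e / 4 * Real.exp (-(32 / (d * e))) := ⟨_, rfl⟩
  have hth0 : 0 < th := by
    rw [hthdef]
    positivity
  have hthinv : 2 / th ≤ Real.exp (40 / (d * e)) := by
    have h1 : 2 / th = 8 / (d * e) * Real.exp (32 / (d * e)) := by
      rw [hthdef, Real.exp_neg]
      have := Real.exp_pos (32 / (d * e))
      field_simp
      norm_num
    have h2 : 8 / (d * e) ≤ Real.exp (8 / (d * e)) := by
      have := Real.add_one_le_exp (8 / (d * e))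
      linarith
    rw [h1, show 40 / (d * e) = 8 / (d * e) + 32 / (d * e) by ring, Real.exp_add]
    exact mul_le_mul_of_nonneg_right h2 (Real.exp_pos _).le
  obtain ⟨R, hR⟩ : ∃ R, R = 4 / e := ⟨_, rfl⟩
  have hR0 : 0 < R := by
    rw [hR]
    positivity
  obtain ⟨R', hR'⟩ : ∃ R', R' = R * (1 - d / 2) := ⟨_, rfl⟩
  have hR'0 : 0 < R' := by
    rw [hR']
    exact mul_pos hR0 (by linarith)
  have hR'R : R' < R := by
    rw [hR']
    nlinarith
  have hRe : R' * (e / 4) = 1 - d / 2 := by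
    rw [hR', hR]
    field_simp
  have hthR : th ≤ 4 * (d / 4) / R * Real.exp (-(2 * R / (d / 4))) := by
    have h1 : 4 * (d / 4) / R = d * e / 4 := by
      rw [hR]
      field_simp
    have h2 : 2 * R / (d / 4) = 32 / (d * e) := by
      rw [hR]
      field_simp
      norm_num
    rw [h1, h2, hthdef]
  -- the set
  obtain ⟨s, hs⟩ : ∃ s : Set ℝ, s = ⋃ Z ∈ Y.powerset, {p : ℝ | d + R' * (p - (1 / 2 - e / 4)) ≤
      mu p Y (fun S => U (S ∪ Z)) - th / 2 * (Z.card : ℝ)} := ⟨_, rfl⟩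
  have hmem : ∀ p, p ∈ s ↔ ∃ Z ∈ Y.powerset, d + R' * (p - (1 / 2 - e / 4)) ≤
      mu p Y (fun S => U (S ∪ Z)) - th / 2 * (Z.card : ℝ) := by
    intro p
    rw [hs]
    simp only [Set.mem_iUnion, Set.mem_ofPred_eq, exists_prop]
  have hcont : ∀ Z : Finset ℕ, Continuous (fun p => mu p Y (fun S => U (S ∪ Z))) := fun Z =>
    continuous_iff_continuousAt.2 fun p => (russo Y (fun S => U (S ∪ Z)) (hUZ Z) p).continuousAt
  have hclosed : IsClosed s := by
    rw [hs]
    refine isClosed_biUnion_finset fun Z _ => ?_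
    have h1 := hcont Z
    exact isClosed_le (by fun_prop) (by fun_prop)
  have hsub : Icc (1 / 2 - e / 4) (1 / 2 : ℝ) ⊆ s := by
    apply IsClosed.Icc_subset_of_forall_exists_gt (hclosed.inter isClosed_Icc)
    · rw [hmem]
      refine ⟨∅, Finset.empty_mem_powerset Y, ?_⟩
      simp only [Finset.union_empty, Finset.card_empty, Nat.cast_zero, mul_zero, sub_zero, sub_self,
        add_zero]
      exact h
    · rintro x ⟨hxs, hx1, hx2⟩ y hy
      rw [hmem] at hxs
      obtain ⟨Z₀, hZ₀, hZ₀x⟩ := hxs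
      have hx0 : 0 < x := by linarith
      have hxlt : x < 1 := by linarith
      obtain ⟨Z, hZ, hZmax⟩ := Finset.exists_max_image Y.powerset
        (fun Z => mu x Y (fun S => U (S ∪ Z)) - th / 2 * (Z.card : ℝ)) ⟨Z₀, hZ₀⟩
      have hZx : d + R' * (x - (1 / 2 - e / 4)) ≤
          mu x Y (fun S => U (S ∪ Z)) - th / 2 * (Z.card : ℝ) := hZ₀x.trans (hZmax Z₀ hZ₀)
      have h1 : 0 ≤ R' * (x - (1 / 2 - e / 4)) := mul_nonneg hR'0.le (by linarith)
      have h2 : 0 ≤ th / 2 * (Z.card : ℝ) := by positivity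
      have h3 := mu_le_one hx0.le hxlt.le Y (fun S => U (S ∪ Z))
      have h4 : d ≤ mu x Y (fun S => U (S ∪ Z)) := by linarith
      have hZcard : (Z.card : ℝ) ≤ Real.exp (40 / (d * e)) := by
        refine le_trans ?_ hthinv
        rw [le_div_iff₀ hth0]
        linarith
      have h5 := hc Z (Finset.mem_powerset.1 hZ) hZcard
      have h6 : mu x Y (fun S => U (S ∪ Z)) ≤ 3 / 4 :=
        (mu_mono_p Y (fun S => U (S ∪ Z)) (hUZ Z) hx0.le hx2.le (by norm_num)).trans h5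
      have h7 : d / 4 ≤ mu x Y (fun S => U (S ∪ Z)) * (1 - mu x Y (fun S => U (S ∪ Z))) := by
        nlinarith
      have h8 : ∀ i ∈ Y, inf x Y i (ind (fun S => U (S ∪ Z))) ≤ th := by
        intro i hi
        by_contra hlt
        push Not at hlt
        have h9 := step x Y U hU Z hi
        have h10 := hZmax (insert i Z) (Finset.mem_powerset.2
          (Finset.insert_subset hi (Finset.mem_powerset.1 hZ)))
        rw [h9] at h10
        have h11 : ((insert i Z).card : ℝ) ≤ (Z.card : ℝ) + 1 := by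
          exact_mod_cast Finset.card_insert_le i Z
        have h12 : th / 2 * ((insert i Z).card : ℝ) ≤ th / 2 * ((Z.card : ℝ) + 1) :=
          mul_le_mul_of_nonneg_left h11 (by linarith)
        nlinarith
      have h9 := rate hx0 hxlt Y (fun S => U (S ∪ Z)) (d / 4) R th (by linarith) h7 hR0 hth0 hthR h8
      have h10 := (hasDerivAt_iff_tendsto_slope.1 (russo Y (fun S => U (S ∪ Z)) (hUZ Z) x))
      have h11 : ∀ᶠ p in 𝓝[≠] x, R' < slope (fun p => mu p Y (fun S => U (S ∪ Z))) x p :=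
        h10.eventually (lt_mem_nhds (hR'R.trans_le h9))
      have h12 : ∀ᶠ p in 𝓝[>] x, R' < slope (fun p => mu p Y (fun S => U (S ∪ Z))) x p :=
        h11.filter_mono (nhdsWithin_mono x fun p hp => ne_of_gt hp)
      obtain ⟨p, hp1, hp2⟩ := (h12.and (Ioc_mem_nhdsGT hy)).exists
      refine ⟨p, ?_, hp2⟩
      rw [hmem]
      refine ⟨Z, hZ, ?_⟩
      have hpx : 0 < p - x := sub_pos.2 hp2.1
      rw [slope_def_field, lt_div_iff₀ hpx] at hp1
      nlinarith
  have hb : (1 / 2 : ℝ) ∈ s := hsub ⟨by linarith, le_refl _⟩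
  rw [hmem] at hb
  obtain ⟨Z, hZ, hZb⟩ := hb
  have h1 := mu_le_one (by norm_num : (0:ℝ) ≤ 1 / 2) (by norm_num) Y (fun S => U (S ∪ Z))
  have h2 : 0 ≤ th / 2 * (Z.card : ℝ) := by positivity
  have h3 : (1 / 2 : ℝ) - (1 / 2 - e / 4) = e / 4 := by ring
  rw [h3, hRe] at hZb
  linarith

end Pool.Agent.DP17.S94
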