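import Pool.Agent.DP17.Rate
import Pool.Agent.DP17.Russo
import Pool.Agent.DP17.Step
import Pool.Agent.DP17.PathS94

/-! Path. a = 1/2 - e/4, b = 1/2, R = 4/e, v = d/4, th = (4v/R) exp(-2R/v) = (d e/4) exp(-32/(d e)),
th' = th/2, 1/th' = (8/(d e)) exp(32/(d e)) <= exp(40/(d e)) (x <= exp x). Note d <= mu <= 1.
Suppose mu (1/2) U_Z <= 3/4 for all Z in Y with card Z <= exp(40/(d e)). R' = R (1 - d/2).
s = {p : exists Z in powerset Y, d + R'(p - a) <= mu p U_Z - th' card Z}: closed (finite union),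
a in s (Z empty). If p in s, a <= p < b, take Z in powerset Y maximising mu p U_Z - th' card Z: this is
>= d + R'(p-a) >= d, so th' card Z <= 1, card Z <= exp(40/(d e)), d <= mu p U_Z <= mu (1/2) U_Z <= 3/4
(mu_mono_p), mu (1 - mu) >= d/4 = v. For i in Y inf p i <= th: otherwise insert i Z is better (step,
(1-p) inf > th/2 = th', card grows by at most 1). rate: the derivative (russo) of p -> mu p U_Z is
>= R > R', so mu p' U_Z >= mu p U_Z + R'(p' - p) for p' > p close to p, p' in s.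
IsClosed.Icc_subset_of_forall_exists_gt: b in s, so d + R'/R <= 1 (R (b - a) = 1), i.e.
d + 1 - d/2 <= 1: contradiction. -/

namespace Pool.Agent.DP17

theorem path (Y : Finset ℕ) (U : Finset ℕ → Prop) (hU : ∀ S T, S ⊆ T → U S → U T)
    (d e : ℝ) (hd : 0 < d) (he : 0 < e) (he1 : e ≤ 1 / 2) (h : d ≤ mu (1 / 2 - e / 4) Y U) :
    ∃ Z ⊆ Y, (Z.card : ℝ) ≤ Real.exp (40 / (d * e)) ∧
      3 / 4 < mu (1 / 2) Y (fun S => U (S ∪ Z)) := by
  exact S94.path Y U hU d e hd he he1 h

end Pool.Agent.DP17
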