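import Pool.Agent.DP17.PathS94

/-! PathB17: as PathS94 with the exponential barrier d * exp (R' (p - a)), R' e / 4 = log (3/(2d)),
R0 e / 4 = log (2/d), th = exp (-8 R0) / R0; rate with v = M/4, R = R0 M. -/

namespace Pool.Agent.DP17.B17

open Pool.Agent.DP17 Set Filter Topology

theorem path (Y : Finset ℕ) (U : Finset ℕ → Prop) (hU : ∀ S T, S ⊆ T → U S → U T)
    (d e : ℝ) (hd : 0 < d) (he : 0 < e) (he1 : e ≤ 1 / 2) (h : d ≤ mu (1 / 2 - e / 4) Y U) :
    ∃ Z ⊆ Y, (Z.card : ℝ) ≤ Real.exp (40 * Real.log (2 / d) / e) ∧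
      3 / 4 < mu (1 / 2) Y (fun S => U (S ∪ Z)) := by
  by_contra hc
  push Not at hc
  have hd1 : d ≤ 1 := h.trans (S94.mu_le_one (by linarith) (by linarith) Y U)
  have hUZ : ∀ Z : Finset ℕ, ∀ S T : Finset ℕ, S ⊆ T → U (S ∪ Z) → U (T ∪ Z) :=
    fun Z S T hST hS => hU _ _ (Finset.union_subset_union hST (Finset.Subset.refl Z)) hS
  -- the constants
  obtain ⟨R0, hR0def⟩ : ∃ R0, R0 = 4 / e * Real.log (2 / d) := ⟨_, rfl⟩
  obtain ⟨R', hR'def⟩ : ∃ R', R' = 4 / e * Real.log (3 / 2 / d) := ⟨_, rfl⟩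
  have hl1 : 0 < Real.log (3 / 2 / d) := by
    apply Real.log_pos
    rw [lt_div_iff₀ hd]
    linarith
  have hl2 : Real.log (3 / 2 / d) < Real.log (2 / d) := by
    apply Real.log_lt_log (by positivity)
    apply div_lt_div_of_pos_right _ hd
    norm_num
  have h4e : 0 < 4 / e := by positivity
  have hR'0 : 0 < R' := by
    rw [hR'def]
    exact mul_pos h4e hl1
  have hR'R : R' < R0 := by
    rw [hR'def, hR0def]
    exact mul_lt_mul_of_pos_left hl2 h4e
  have hR00 : 0 < R0 := hR'0.trans hR'R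
  obtain ⟨th, hthdef⟩ : ∃ th, th = 1 / R0 * Real.exp (-(8 * R0)) := ⟨_, rfl⟩
  have hth0 : 0 < th := by
    rw [hthdef]
    positivity
  have hthinv : 2 / th ≤ Real.exp (40 * Real.log (2 / d) / e) := by
    have h1 : 2 / th = 2 * R0 * Real.exp (8 * R0) := by
      rw [hthdef, Real.exp_neg]
      have := Real.exp_pos (8 * R0)
      field_simp
    have h2 : 2 * R0 ≤ Real.exp (2 * R0) := by
      have := Real.add_one_le_exp (2 * R0)
      linarith
    have h3 : 40 * Real.log (2 / d) / e = 2 * R0 + 8 * R0 := by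
      rw [hR0def]
      ring
    rw [h1, h3, Real.exp_add]
    exact mul_le_mul_of_nonneg_right h2 (Real.exp_pos _).le
  -- the barrier
  obtain ⟨bar, hbardef⟩ : ∃ bar : ℝ → ℝ, bar = fun p => d * Real.exp (R' * (p - (1 / 2 - e / 4))) :=
    ⟨_, rfl⟩
  have hbar0 : ∀ p, 0 < bar p := fun p => by
    rw [hbardef]
    positivity
  have hbard : ∀ p, HasDerivAt bar (R' * bar p) p := fun p => by
    rw [hbardef]
    have h1 : HasDerivAt (fun p : ℝ => R' * (p - (1 / 2 - e / 4))) (R' * 1) p :=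
      ((hasDerivAt_id' p).sub_const _).const_mul R'
    have h2 := (h1.exp).const_mul d
    have h3 : R' * (d * Real.exp (R' * (p - (1 / 2 - e / 4)))) =
        d * (Real.exp (R' * (p - (1 / 2 - e / 4))) * (R' * 1)) := by ring
    rw [h3]
    exact h2
  have hbarc : Continuous bar := continuous_iff_continuousAt.2 fun p => (hbard p).continuousAt
  have hbara : bar (1 / 2 - e / 4) = d := by
    rw [hbardef]
    simp
  have hbarb : bar (1 / 2) = 3 / 2 := by
    rw [hbardef]
    have h1 : R' * (1 / 2 - (1 / 2 - e / 4)) = Real.log (3 / 2 / d) := by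
      rw [hR'def]
      field_simp
      ring
    show d * Real.exp (R' * (1 / 2 - (1 / 2 - e / 4))) = 3 / 2
    rw [h1, Real.exp_log (by positivity)]
    field_simp
  have hbarge : ∀ p, 1 / 2 - e / 4 ≤ p → d ≤ bar p := fun p hp => by
    rw [hbardef]
    have h1 : 0 ≤ R' * (p - (1 / 2 - e / 4)) := mul_nonneg hR'0.le (by linarith)
    have h2 := Real.one_le_exp h1
    show d ≤ d * Real.exp (R' * (p - (1 / 2 - e / 4)))
    nlinarith
  -- the set
  obtain ⟨s, hs⟩ : ∃ s : Set ℝ, s = ⋃ Z ∈ Y.powerset, {p : ℝ | bar p ≤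
      mu p Y (fun S => U (S ∪ Z)) - th / 2 * (Z.card : ℝ)} := ⟨_, rfl⟩
  have hmem : ∀ p, p ∈ s ↔ ∃ Z ∈ Y.powerset, bar p ≤
      mu p Y (fun S => U (S ∪ Z)) - th / 2 * (Z.card : ℝ) := by
    intro p
    rw [hs]
    simp only [Set.mem_iUnion, Set.mem_ofPred_eq, exists_prop]
  have hcont : ∀ Z : Finset ℕ, Continuous (fun p => mu p Y (fun S => U (S ∪ Z))) := fun Z =>
    continuous_iff_continuousAt.2 fun p => (russo Y (fun S => U (S ∪ Z)) (hUZ Z) p).continuousAt
  have hclosed : IsClosed s := by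
    rw [hs]
    refine isClosed_biUnion_finset fun Z _ => ?_
    have h1 := hcont Z
    exact isClosed_le hbarc (h1.sub continuous_const)
  have hsub : Icc (1 / 2 - e / 4) (1 / 2 : ℝ) ⊆ s := by
    apply IsClosed.Icc_subset_of_forall_exists_gt (hclosed.inter isClosed_Icc)
    · rw [hmem]
      refine ⟨∅, Finset.empty_mem_powerset Y, ?_⟩
      simp only [Finset.union_empty, Finset.card_empty, Nat.cast_zero, mul_zero, sub_zero]
      rw [hbara]
      exact h
    · rintro x ⟨hxs, hx1, hx2⟩ y hy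
      rw [hmem] at hxs
      obtain ⟨Z₀, hZ₀, hZ₀x⟩ := hxs
      have hx0 : 0 < x := by linarith
      have hxlt : x < 1 := by linarith
      obtain ⟨Z, hZ, hZmax⟩ := Finset.exists_max_image Y.powerset
        (fun Z => mu x Y (fun S => U (S ∪ Z)) - th / 2 * (Z.card : ℝ)) ⟨Z₀, hZ₀⟩
      have hZx : bar x ≤ mu x Y (fun S => U (S ∪ Z)) - th / 2 * (Z.card : ℝ) :=
        hZ₀x.trans (hZmax Z₀ hZ₀)
      have h2 : 0 ≤ th / 2 * (Z.card : ℝ) := by positivity
      have h3 := S94.mu_le_one hx0.le hxlt.le Y (fun S => U (S ∪ Z))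
      have hbx := hbar0 x
      obtain ⟨M, hM⟩ : ∃ M, M = mu x Y (fun S => U (S ∪ Z)) := ⟨_, rfl⟩
      rw [← hM] at hZx h3
      have hMb : bar x ≤ M := by linarith
      have hM0 : 0 < M := hbx.trans_le hMb
      have hZcard : (Z.card : ℝ) ≤ Real.exp (40 * Real.log (2 / d) / e) := by
        refine le_trans ?_ hthinv
        rw [le_div_iff₀ hth0]
        linarith
      have h5 := hc Z (Finset.mem_powerset.1 hZ) hZcard
      have h6 : M ≤ 3 / 4 := by
        rw [hM]
        exact (mu_mono_p Y (fun S => U (S ∪ Z)) (hUZ Z) hx0.le hx2.le (by norm_num)).trans h5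
      have h7 : M / 4 ≤ mu x Y (fun S => U (S ∪ Z)) * (1 - mu x Y (fun S => U (S ∪ Z))) := by
        rw [← hM]
        nlinarith
      have h8 : ∀ i ∈ Y, inf x Y i (ind (fun S => U (S ∪ Z))) ≤ th := by
        intro i hi
        by_contra hlt
        push Not at hlt
        have h9 := step x Y U hU Z hi
        have h10 := hZmax (insert i Z) (Finset.mem_powerset.2
          (Finset.insert_subset hi (Finset.mem_powerset.1 hZ)))
        rw [h9] at h10
        have h11 : ((insert i Z).card : ℝ) ≤ (Z.card : ℝ) + 1 := by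
          exact_mod_cast Finset.card_insert_le i Z
        have h12 : th / 2 * ((insert i Z).card : ℝ) ≤ th / 2 * ((Z.card : ℝ) + 1) :=
          mul_le_mul_of_nonneg_left h11 (by linarith)
        nlinarith
      have hthR : th ≤ 4 * (M / 4) / (R0 * M) * Real.exp (-(2 * (R0 * M) / (M / 4))) := by
        have h13 : 4 * (M / 4) / (R0 * M) = 1 / R0 := by
          field_simp
        have h14 : 2 * (R0 * M) / (M / 4) = 8 * R0 := by
          field_simp
          norm_num
        rw [h13, h14, hthdef]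
      have h9 := rate hx0 hxlt Y (fun S => U (S ∪ Z)) (M / 4) (R0 * M) th (by linarith) h7
        (mul_pos hR00 hM0) hth0 hthR h8
      have h10 := (hasDerivAt_iff_tendsto_slope.1
        ((russo Y (fun S => U (S ∪ Z)) (hUZ Z) x).sub (hbard x)))
      have hpos : 0 < (∑ i ∈ Y, inf x Y i (ind (fun S => U (S ∪ Z)))) - R' * bar x := by
        have h15 : R' * bar x ≤ R' * M := mul_le_mul_of_nonneg_left hMb hR'0.le
        have h16 : R' * M < R0 * M := mul_lt_mul_of_pos_right hR'R hM0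
        linarith
      have h11 := h10.eventually (lt_mem_nhds hpos)
      have h12 := h11.filter_mono (nhdsWithin_mono x fun p (hp : p ∈ Ioi x) => ne_of_gt hp)
      obtain ⟨p, hp1, hp2⟩ := (h12.and (Ioc_mem_nhdsGT hy)).exists
      refine ⟨p, ?_, hp2⟩
      rw [hmem]
      refine ⟨Z, hZ, ?_⟩
      have hpx : 0 < p - x := sub_pos.2 hp2.1
      rw [slope_def_field, lt_div_iff₀ hpx, zero_mul] at hp1
      simp only [Pi.sub_apply] at hp1
      rw [← hM] at hp1
      linarith
  have hb : (1 / 2 : ℝ) ∈ s := hsub ⟨by linarith, le_refl _⟩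
  rw [hmem] at hb
  obtain ⟨Z, hZ, hZb⟩ := hb
  have h1 := S94.mu_le_one (by norm_num : (0:ℝ) ≤ 1 / 2) (by norm_num) Y (fun S => U (S ∪ Z))
  have h2 : 0 ≤ th / 2 * (Z.card : ℝ) := by positivity
  rw [hbarb] at hZb
  linarith

end Pool.Agent.DP17.B17
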