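import Pool.Agent.DP17.Mart

/-! Rate. f = ind U, f^2 = f: ep f^2 - (ep f)^2 = m(1-m) = V; (df i f)^2 = |df i f| (values -1,0,1),
so en = I = sum of the influences. Suppose I < R. t = 4v/(th R) > 0, log t >= 2R/v > 0 by hth.
mart: V (log t + 1) - t sum (inf/2)^2 <= 2 I, sum (inf/2)^2 <= th I/4 <= th R/4, so t sum <= v <= V
and V log t <= 2 I < 2R; but V log t >= v (2R/v) = 2R. -/

namespace Pool.Agent.DP17

theorem rate {p : ℝ} (hp : 0 < p) (hp1 : p < 1) (Y : Finset ℕ) (U : Finset ℕ → Prop)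
    (v R th : ℝ) (hv : 0 < v) (hV : v ≤ mu p Y U * (1 - mu p Y U)) (hR : 0 < R) (hth0 : 0 < th)
    (hth : th ≤ 4 * v / R * Real.exp (-(2 * R / v)))
    (hinf : ∀ i ∈ Y, inf p Y i (ind U) ≤ th) :
    R ≤ ∑ i ∈ Y, inf p Y i (ind U) := by
  by_contra hcon
  push Not at hcon
  have hid : ∀ S, ind U S ^ 2 = ind U S := by
    intro S; unfold ind; split_ifs <;> norm_num
  have hab : ∀ i S, df i (ind U) S ^ 2 = |df i (ind U) S| := by
    intro i S; unfold df ind; split_ifs <;> norm_num
  have hen : en p Y (ind U) = ∑ i ∈ Y, inf p Y i (ind U) := by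
    unfold en inf
    apply Finset.sum_congr rfl
    intro i _
    congr 1
    funext S
    exact hab i S
  have hsq : ep p Y (fun S => ind U S ^ 2) = mu p Y U := by
    unfold mu
    congr 1
    funext S
    exact hid S
  have hin0 : ∀ i, 0 ≤ inf p Y i (ind U) := fun i =>
    ep_nonneg hp.le hp1.le Y fun S _ => abs_nonneg _
  have hm : ep p Y (ind U) = mu p Y U := rfl
  have ht : 0 < 4 * v / (th * R) := by positivity
  have key := mart hp hp1 Y (ind U) (4 * v / (th * R)) ht
  rw [hsq, hm, hen] at key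
  have hmm : mu p Y U - mu p Y U ^ 2 = mu p Y U * (1 - mu p Y U) := by ring
  rw [hmm] at key
  have hs2 : ∑ i ∈ Y, (inf p Y i (ind U) / 2) ^ 2 ≤ th * R / 4 := by
    have h1 : ∑ i ∈ Y, (inf p Y i (ind U) / 2) ^ 2 ≤
        ∑ i ∈ Y, th / 4 * inf p Y i (ind U) := by
      apply Finset.sum_le_sum
      intro i hi
      have h2 := mul_le_mul_of_nonneg_right (hinf i hi) (hin0 i)
      calc (inf p Y i (ind U) / 2) ^ 2 = inf p Y i (ind U) * inf p Y i (ind U) / 4 := by ring
        _ ≤ th * inf p Y i (ind U) / 4 := by linarith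
        _ = th / 4 * inf p Y i (ind U) := by ring
    rw [← Finset.mul_sum] at h1
    have h3 := mul_le_mul_of_nonneg_left hcon.le (show 0 ≤ th / 4 by positivity)
    have h4 : th / 4 * R = th * R / 4 := by ring
    linarith
  have hs3 : 4 * v / (th * R) * ∑ i ∈ Y, (inf p Y i (ind U) / 2) ^ 2 ≤ v := by
    calc 4 * v / (th * R) * ∑ i ∈ Y, (inf p Y i (ind U) / 2) ^ 2 ≤
        4 * v / (th * R) * (th * R / 4) := mul_le_mul_of_nonneg_left hs2 ht.le
      _ = v := by field_simp
  have hlt : 2 * R / v ≤ Real.log (4 * v / (th * R)) := by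
    rw [Real.le_log_iff_exp_le ht, le_div_iff₀ (by positivity)]
    have h5 := mul_le_mul_of_nonneg_right hth hR.le
    have h6 := mul_le_mul_of_nonneg_left h5 (Real.exp_pos (2 * R / v)).le
    have h7 : Real.exp (2 * R / v) * (4 * v / R * Real.exp (-(2 * R / v)) * R) = 4 * v := by
      have h8 : Real.exp (2 * R / v) * Real.exp (-(2 * R / v)) = 1 := by
        rw [← Real.exp_add, add_neg_cancel, Real.exp_zero]
      calc Real.exp (2 * R / v) * (4 * v / R * Real.exp (-(2 * R / v)) * R) =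
          (Real.exp (2 * R / v) * Real.exp (-(2 * R / v))) * (4 * v / R * R) := by ring
        _ = 4 * v := by rw [h8, one_mul, div_mul_cancel₀ _ hR.ne']
    linarith
  have hV0 : 0 ≤ mu p Y U * (1 - mu p Y U) := hv.le.trans hV
  have h9 : 2 * R ≤ mu p Y U * (1 - mu p Y U) * Real.log (4 * v / (th * R)) := by
    calc 2 * R = v * (2 * R / v) := by field_simp
      _ ≤ mu p Y U * (1 - mu p Y U) * (2 * R / v) :=
          mul_le_mul_of_nonneg_right hV (by positivity)
      _ ≤ _ := mul_le_mul_of_nonneg_left hlt hV0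
  have h10 : mu p Y U * (1 - mu p Y U) * (Real.log (4 * v / (th * R)) + 1) =
      mu p Y U * (1 - mu p Y U) * Real.log (4 * v / (th * R)) +
        mu p Y U * (1 - mu p Y U) := by ring
  rw [h10] at key
  linarith

end Pool.Agent.DP17
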