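import Pool.Agent.DP17.Def

/-! Two. two: M = (1-p) a^2 + p b^2. If M = 0 then a = 0 or p = 1.. : with 0 < p < 1 M = 0 gives
a = b = 0. Else log x <= x - 1 with x = a^2/M, b^2/M: left side <= ((1-p) a^4 + p b^4)/M - M
= p(1-p)(a^2-b^2)^2/M, and p(1-p)(a+b)^2 <= 2 p(1-p)(a^2+b^2) <= 2 M.
mink: Cauchy-Schwarz with the weights p^|S| (1-p)^(|Y|-|S|) (as DZ17/Two.mink). -/

namespace Pool.Agent.DP17

/-- `x log x ≤ x log m + x (x / m - 1)` for `x ≥ 0`, `m > 0` -/
theorem two_aux (x m : ℝ) (hx : 0 ≤ x) (hm : 0 < m) :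
    x * Real.log x ≤ x * Real.log m + x * (x / m - 1) := by
  rcases eq_or_lt_of_le hx with h | h
  · rw [← h]
    simp
  · have h1 : Real.log (x / m) ≤ x / m - 1 := Real.log_le_sub_one_of_pos (div_pos h hm)
    rw [Real.log_div h.ne' hm.ne'] at h1
    have h2 := mul_le_mul_of_nonneg_left h1 hx
    linarith

theorem two (p a b : ℝ) (hp : 0 < p) (hp1 : p < 1) (ha : 0 ≤ a) (hb : 0 ≤ b) :
    (1 - p) * (a ^ 2 * Real.log (a ^ 2)) + p * (b ^ 2 * Real.log (b ^ 2)) -
      ((1 - p) * a ^ 2 + p * b ^ 2) * Real.log ((1 - p) * a ^ 2 + p * b ^ 2) ≤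
      2 * (a - b) ^ 2 := by
  have hq : 0 < 1 - p := by linarith
  have hA : 0 ≤ (1 - p) * a ^ 2 := by positivity
  have hB : 0 ≤ p * b ^ 2 := by positivity
  rcases eq_or_lt_of_le (add_nonneg hA hB) with h | h
  · have h1 : (1 - p) * a ^ 2 = 0 := by linarith
    have h2 : p * b ^ 2 = 0 := by linarith
    have h3 : a ^ 2 = 0 := (mul_eq_zero.1 h1).resolve_left hq.ne'
    have h4 : b ^ 2 = 0 := (mul_eq_zero.1 h2).resolve_left hp.ne'
    rw [h3, h4]
    simp
    positivity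
  · set m := (1 - p) * a ^ 2 + p * b ^ 2 with hm
    have h1 := mul_le_mul_of_nonneg_left (two_aux (a ^ 2) m (sq_nonneg a) h) hq.le
    have h2 := mul_le_mul_of_nonneg_left (two_aux (b ^ 2) m (sq_nonneg b) h) hp.le
    have h4 : (1 - p) * (a ^ 2 * (a ^ 2 / m - 1)) + p * (b ^ 2 * (b ^ 2 / m - 1)) ≤
        2 * (a - b) ^ 2 := by
      have h5 : (1 - p) * (a ^ 2 * (a ^ 2 / m - 1)) + p * (b ^ 2 * (b ^ 2 / m - 1)) =
          p * (1 - p) * (a + b) ^ 2 * (a - b) ^ 2 / m := by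
        have h6 : (1 - p) * (a ^ 2 * (a ^ 2 / m - 1)) + p * (b ^ 2 * (b ^ 2 / m - 1)) =
            ((1 - p) * a ^ 4 + p * b ^ 4 - m * m) / m := by
          have h7 : (1 - p) * (a ^ 2 * (a ^ 2 / m - 1)) + p * (b ^ 2 * (b ^ 2 / m - 1)) =
              ((1 - p) * a ^ 4 + p * b ^ 4) / m - ((1 - p) * a ^ 2 + p * b ^ 2) := by ring
          rw [h7, ← hm, sub_div, mul_div_assoc m m m, div_self h.ne', mul_one]
        rw [h6]
        congr 1
        rw [hm]
        ring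
      rw [h5, div_le_iff₀ h]
      have h8 : p * (1 - p) * (a + b) ^ 2 ≤ 2 * m := by
        have h9 : (a + b) ^ 2 ≤ 2 * (a ^ 2 + b ^ 2) := by nlinarith [sq_nonneg (a - b)]
        have h10 : 0 ≤ p * (1 - p) := by positivity
        have h11 := mul_le_mul_of_nonneg_left h9 h10
        have h12 : p * (1 - p) * a ^ 2 ≤ (1 - p) * a ^ 2 := by
          have : p * ((1 - p) * a ^ 2) ≤ 1 * ((1 - p) * a ^ 2) :=
            mul_le_mul_of_nonneg_right hp1.le hA
          linarith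
        have h13 : p * (1 - p) * b ^ 2 ≤ p * b ^ 2 := by
          have : (1 - p) * (p * b ^ 2) ≤ 1 * (p * b ^ 2) :=
            mul_le_mul_of_nonneg_right (by linarith) hB
          linarith
        rw [hm]
        linarith
      calc p * (1 - p) * (a + b) ^ 2 * (a - b) ^ 2 ≤ 2 * m * (a - b) ^ 2 :=
            mul_le_mul_of_nonneg_right h8 (sq_nonneg _)
        _ = 2 * (a - b) ^ 2 * m := by ring
    have h7 : m * Real.log m = (1 - p) * (a ^ 2 * Real.log m) + p * (b ^ 2 * Real.log m) := by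
      rw [hm]
      ring
    rw [h7]
    linarith

theorem mink_cs {p : ℝ} (hp : 0 ≤ p) (hp1 : p ≤ 1) (Y : Finset ℕ) (f g : Finset ℕ → ℝ) :
    ep p Y (fun S => f S * g S) ≤
      Real.sqrt (ep p Y (fun S => f S ^ 2)) * Real.sqrt (ep p Y (fun S => g S ^ 2)) := by
  have hP : 0 ≤ ep p Y (fun S => f S ^ 2) := ep_nonneg hp hp1 Y fun S _ => sq_nonneg _
  have h1 : (ep p Y (fun S => f S * g S)) ^ 2 ≤
      ep p Y (fun S => f S ^ 2) * ep p Y (fun S => g S ^ 2) := by
    unfold ep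
    have hw : ∀ S : Finset ℕ, 0 ≤ p ^ S.card * (1 - p) ^ (Y.card - S.card) := by
      intro S
      have hq : 0 ≤ 1 - p := by linarith
      positivity
    have h2 := Finset.sum_mul_sq_le_sq_mul_sq Y.powerset
      (fun S => Real.sqrt (p ^ S.card * (1 - p) ^ (Y.card - S.card)) * f S)
      (fun S => Real.sqrt (p ^ S.card * (1 - p) ^ (Y.card - S.card)) * g S)
    have e1 : ∀ S ∈ Y.powerset,
        (Real.sqrt (p ^ S.card * (1 - p) ^ (Y.card - S.card)) * f S) *
        (Real.sqrt (p ^ S.card * (1 - p) ^ (Y.card - S.card)) * g S) =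
        p ^ S.card * (1 - p) ^ (Y.card - S.card) * (f S * g S) := by
      intro S _
      have e := Real.mul_self_sqrt (hw S)
      calc _ = (Real.sqrt (p ^ S.card * (1 - p) ^ (Y.card - S.card)) *
            Real.sqrt (p ^ S.card * (1 - p) ^ (Y.card - S.card))) * (f S * g S) := by ring
        _ = _ := by rw [e]
    have e2 : ∀ (k : Finset ℕ → ℝ), ∀ S ∈ Y.powerset,
        (Real.sqrt (p ^ S.card * (1 - p) ^ (Y.card - S.card)) * k S) ^ 2 =
        p ^ S.card * (1 - p) ^ (Y.card - S.card) * k S ^ 2 := by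
      intro k S _
      rw [mul_pow, Real.sq_sqrt (hw S)]
    rw [Finset.sum_congr rfl e1, Finset.sum_congr rfl (e2 f), Finset.sum_congr rfl (e2 g)] at h2
    exact h2
  rw [← Real.sqrt_mul hP]
  exact (le_abs_self _).trans (Real.abs_le_sqrt h1)

theorem mink {p : ℝ} (hp : 0 ≤ p) (hp1 : p ≤ 1) (Y : Finset ℕ) (f g : Finset ℕ → ℝ) :
    (Real.sqrt (ep p Y (fun S => f S ^ 2)) - Real.sqrt (ep p Y (fun S => g S ^ 2))) ^ 2 ≤
      ep p Y (fun S => (f S - g S) ^ 2) := by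
  have hP : 0 ≤ ep p Y (fun S => f S ^ 2) := ep_nonneg hp hp1 Y fun S _ => sq_nonneg _
  have hQ : 0 ≤ ep p Y (fun S => g S ^ 2) := ep_nonneg hp hp1 Y fun S _ => sq_nonneg _
  have h1 := mink_cs hp hp1 Y f g
  have h2 : ep p Y (fun S => (f S - g S) ^ 2) =
      ep p Y (fun S => f S ^ 2) + ep p Y (fun S => g S ^ 2) - 2 * ep p Y (fun S => f S * g S) := by
    have e : (fun S => (f S - g S) ^ 2) =
        fun S => (f S ^ 2 + g S ^ 2) + (-2) * (f S * g S) := by
      funext S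
      ring
    rw [e, ep_add p Y (fun S => f S ^ 2 + g S ^ 2) (fun S => (-2) * (f S * g S)),
      ep_add p Y (fun S => f S ^ 2) (fun S => g S ^ 2), ep_mul p Y (-2) (fun S => f S * g S)]
    ring
  have h3 : (Real.sqrt (ep p Y (fun S => f S ^ 2)) - Real.sqrt (ep p Y (fun S => g S ^ 2))) ^ 2 =
      ep p Y (fun S => f S ^ 2) + ep p Y (fun S => g S ^ 2) -
        2 * (Real.sqrt (ep p Y (fun S => f S ^ 2)) * Real.sqrt (ep p Y (fun S => g S ^ 2))) := by
    rw [sub_sq, Real.sq_sqrt hP, Real.sq_sqrt hQ]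
    ring
  rw [h2, h3]
  linarith

end Pool.Agent.DP17
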